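import Pool.Agent.Lib.MP_7c0edd_co.helper21.Defs
import Pool.Agent.Lib.MP_7c0edd_co.helper21.Mono
import Pool.Agent.Lib.MP_7c0edd_co.helper21.Gadget
import Pool.Agent.Lib.MP_7c0edd_co.H26.Final2

section
/-!
# Blow-up of a covering set of a small cube

`l ≥ 2`: every coordinate gets a random type in `Fin m`; subcubes whose stars have distinct types
are read in `Q_m` (the bit of a type is the parity of the ones of this type), subcubes with two
stars of the same type are taken from a family which covers all subcubes with a marked pair of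
stars.
-/
set_option autoImplicit false

namespace Pool.Agent.Lib.MP_7c0edd_co.Blow

open Finset Pool.Agent.Lib.MP_7c0edd_co.H21

/-- every `d`-subcube has, for each pair of its stars, a member of `S` inside which keeps both
stars -/
def MCov {n : ℕ} (d l : ℕ) (S : Finset (W n)) : Prop :=
  (∀ w ∈ S, (stars w).card = l) ∧
    ∀ x : W n, (stars x).card = d → ∀ i ∈ stars x, ∀ j ∈ stars x, i ≠ j →
      ∃ w ∈ S, Below w x ∧ i ∈ stars w ∧ j ∈ stars w

section virt

variable {n m : ℕ}

/-- the parity of the ones of `w` of type `r` -/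
def par (τ : Fin n → Fin m) (w : W n) (r : Fin m) : Bool :=
  decide ((univ.filter (fun i => τ i = r ∧ w i = some true)).card % 2 = 1)

/-- the subcube of `Q_m` read from `w` -/
def virt (τ : Fin n → Fin m) (z : Fin m → Bool) (w : W n) : W m :=
  fun r => if ∃ i, w i = none ∧ τ i = r then none else some (xor (z r) (par τ w r))

lemma virt_none {τ : Fin n → Fin m} {z : Fin m → Bool} {w : W n} {r : Fin m} :
    virt τ z w r = none ↔ ∃ i, w i = none ∧ τ i = r := by
  unfold virt
  split_ifs with h
  · simp [h]
  · simp only [false_iff]; exact h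

lemma stars_virt (τ : Fin n → Fin m) (z : Fin m → Bool) (w : W n) :
    stars (virt τ z w) = (stars w).image τ := by
  ext r
  rw [mem_stars, virt_none, mem_image]
  constructor
  · rintro ⟨i, hi, hr⟩; exact ⟨i, mem_stars.mpr hi, hr⟩
  · rintro ⟨i, hi, hr⟩; exact ⟨i, mem_stars.mp hi, hr⟩

lemma par_congr {τ : Fin n → Fin m} {w w' : W n} {r : Fin m}
    (h : ∀ i, τ i = r → w i = w' i) : par τ w r = par τ w' r := by
  unfold par
  have : univ.filter (fun i => τ i = r ∧ w i = some true)
      = univ.filter (fun i => τ i = r ∧ w' i = some true) := by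
    ext i
    simp only [mem_filter, mem_univ, true_and]
    constructor
    · rintro ⟨h1, h2⟩; exact ⟨h1, by rw [← h i h1]; exact h2⟩
    · rintro ⟨h1, h2⟩; exact ⟨h1, by rw [h i h1]; exact h2⟩
  rw [this]

/-- filling one star of type `r` -/
lemma par_fill {τ : Fin n → Fin m} {w w' : W n} {r : Fin m} {i₀ : Fin n} {b : Bool}
    (hi : τ i₀ = r) (h0 : w i₀ = none) (h1 : w' i₀ = some b)
    (h : ∀ i, τ i = r → i ≠ i₀ → w' i = w i) : par τ w' r = xor (par τ w r) b := by
  unfold par
  rcases b with _ | _
  · have : univ.filter (fun i => τ i = r ∧ w' i = some true)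
      = univ.filter (fun i => τ i = r ∧ w i = some true) := by
      ext i
      simp only [mem_filter, mem_univ, true_and]
      by_cases hii : i = i₀
      · subst hii; simp [h0, h1]
      · constructor
        · rintro ⟨h2, h3⟩; exact ⟨h2, by rw [← h i h2 hii]; exact h3⟩
        · rintro ⟨h2, h3⟩; exact ⟨h2, by rw [h i h2 hii]; exact h3⟩
    rw [this]; simp
  · have : univ.filter (fun i => τ i = r ∧ w' i = some true)
      = insert i₀ (univ.filter (fun i => τ i = r ∧ w i = some true)) := by
      ext i
      simp only [mem_filter, mem_univ, true_and, mem_insert]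
      by_cases hii : i = i₀
      · subst hii; simp [h1, hi]
      · constructor
        · rintro ⟨h2, h3⟩; exact Or.inr ⟨h2, by rw [← h i h2 hii]; exact h3⟩
        · rintro (h2 | ⟨h2, h3⟩)
          · exact absurd h2 hii
          · exact ⟨h2, by rw [h i h2 hii]; exact h3⟩
    rw [this, card_insert_of_notMem (by simp [h0])]
    rcases Nat.mod_two_eq_zero_or_one
      (univ.filter (fun i => τ i = r ∧ w i = some true)).card with h2 | h2
    · have : ((univ.filter (fun i => τ i = r ∧ w i = some true)).card + 1) % 2 = 1 := by omega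
      simp [h2, this]
    · have : ((univ.filter (fun i => τ i = r ∧ w i = some true)).card + 1) % 2 = 0 := by omega
      simp [h2, this]

/-- A member of the small cube is read from a subcube inside `x`. -/
lemma exists_lift {τ : Fin n → Fin m} {z : Fin m → Bool} {x : W n}
    (hinj : Set.InjOn τ (stars x)) {v : W m} (hv : Below v (virt τ z x)) :
    ∃ w : W n, Below w x ∧ virt τ z w = v ∧ (stars w).card = (stars v).card := by
  classical
  let w : W n := fun i => match x i with
    | some b => some b
    | none => match v (τ i) with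
      | none => none
      | some b => some (xor b (xor (z (τ i)) (par τ x (τ i))))
  have hw1 : ∀ i, x i ≠ none → w i = x i := by
    intro i hi
    rcases hx : x i with _ | b
    · exact absurd hx hi
    · simp only [w, hx]
  have hw2 : ∀ i, x i = none → v (τ i) = none → w i = none := by
    intro i hi hv
    simp only [w, hi, hv]
  have hw3 : ∀ i b, x i = none → v (τ i) = some b →
      w i = some (xor b (xor (z (τ i)) (par τ x (τ i)))) := by
    intro i b hi hv
    simp only [w, hi, hv]
  have hstar : ∀ i, w i = none ↔ x i = none ∧ v (τ i) = none := by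
    intro i
    constructor
    · intro h
      have hx : x i = none := by
        by_contra hx
        rw [hw1 i hx] at h
        exact hx h
      refine ⟨hx, ?_⟩
      rcases hv' : v (τ i) with _ | b
      · rfl
      · rw [hw3 i b hx hv'] at h
        exact absurd h (by simp)
    · rintro ⟨h1, h2⟩
      exact hw2 i h1 h2
  have hBelow : Below w x := by
    intro i
    by_cases hx : x i = none
    · exact Or.inl hx
    · exact Or.inr (hw1 i hx)
  have hvirt : virt τ z w = v := by
    funext r
    by_cases hvr : v r = none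
    · rw [hvr, virt_none]
      have hX : virt τ z x r = none := by
        rcases hv r with h | h
        · exact h
        · rw [← h]; exact hvr
      obtain ⟨i, hi, hir⟩ := virt_none.mp hX
      exact ⟨i, (hstar i).mpr ⟨hi, by rw [hir]; exact hvr⟩, hir⟩
    · obtain ⟨b, hb⟩ := Option.ne_none_iff_exists'.mp hvr
      have hno : ¬ ∃ i, w i = none ∧ τ i = r := by
        rintro ⟨i, hi, hir⟩
        have := ((hstar i).mp hi).2
        rw [hir, hb] at this
        exact absurd this (by simp)
      have h1 : virt τ z w r = some (xor (z r) (par τ w r)) := by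
        unfold virt; rw [if_neg hno]
      rw [h1, hb]
      congr 1
      by_cases hX : virt τ z x r = none
      · obtain ⟨i₀, hi₀, hir⟩ := virt_none.mp hX
        have h2 := hw3 i₀ b hi₀ (by rw [hir]; exact hb)
        rw [hir] at h2
        rw [par_fill (w := x) hir hi₀ h2 (fun i hi hne => ?_)]
        · cases z r <;> cases par τ x r <;> cases b <;> rfl
        · refine hw1 i (fun hx => hne ?_)
          exact hinj (mem_coe.mpr (mem_stars.mpr hx)) (mem_coe.mpr (mem_stars.mpr hi₀))
            (by rw [hi, hir])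
      · have h2 : v r = virt τ z x r := by
          rcases hv r with h | h
          · exact absurd h hX
          · exact h
        have h3 : virt τ z x r = some (xor (z r) (par τ x r)) := by
          unfold virt
          rw [if_neg (fun h => hX (virt_none.mpr h))]
        rw [hb, h3] at h2
        have h4 : par τ w r = par τ x r := par_congr (fun i hi => hw1 i (fun hx => hX
          (virt_none.mpr ⟨i, hx, hi⟩)))
        rw [h4]
        exact (Option.some.inj h2).symm
  refine ⟨w, hBelow, hvirt, ?_⟩
  rw [← hvirt, stars_virt, card_image_of_injOn]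
  exact hinj.mono (by exact_mod_cast stars_subset hBelow)

end virt

section count

variable {n m : ℕ}

/-- the choices -/
abbrev Om (n m : ℕ) := (Fin n → Fin m) × (Fin m → Bool)

/-- how often `v` is read from `w` -/
def cnt (w : W n) (v : W m) : Finset (Om n m) :=
  univ.filter (fun p => virt p.1 p.2 w = v)

lemma exists_perm {s t : Finset (Fin m)} (h : s.card = t.card) :
    ∃ σ : Equiv.Perm (Fin m), ∀ i, σ i ∈ t ↔ i ∈ s := by
  classical
  let e : {x // x ∈ s} ≃ {x // x ∈ t} := Finset.equivOfCardEq h
  refine ⟨e.extendSubtype, fun i => ⟨fun hi => ?_, fun hi => ?_⟩⟩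
  · by_contra hn
    exact e.extendSubtype_not_mem i hn hi
  · exact e.extendSubtype_mem i hi

lemma par_perm (σ : Equiv.Perm (Fin m)) (τ : Fin n → Fin m) (w : W n) (r : Fin m) :
    par (σ ∘ τ) w (σ r) = par τ w r := by
  unfold par
  simp

lemma cnt_le (w : W n) {v v' : W m} (h : (stars v).card = (stars v').card) :
    (cnt w v).card ≤ (cnt w v').card := by
  classical
  obtain ⟨σ, hσ⟩ := exists_perm h
  let y : Fin m → Bool := fun r => xor ((v' (σ r)).getD false) ((v r).getD false)
  let F : Om n m → Om n m := fun p => (σ ∘ p.1, fun r => xor (p.2 (σ.symm r)) (y (σ.symm r)))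
  have hF : Function.Injective F := by
    rintro ⟨τ, z⟩ ⟨τ', z'⟩ hp
    simp only [F, Prod.mk.injEq] at hp
    obtain ⟨h1, h2⟩ := hp
    refine Prod.ext ?_ ?_
    · funext i
      exact σ.injective (congrFun h1 i)
    · funext r
      have := congrFun h2 (σ r)
      simp only [Equiv.symm_apply_apply] at this
      show z r = z' r
      revert this
      cases z r <;> cases z' r <;> cases y r <;> simp
  refine card_le_card_of_injOn F ?_ hF.injOn
  intro p hp
  rw [mem_coe, cnt, mem_filter] at hp ⊢
  refine ⟨mem_univ _, ?_⟩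
  have hp2 := hp.2
  funext r
  obtain ⟨s, rfl⟩ := σ.surjective r
  have hs := congrFun hp2 s
  by_cases hvs : v s = none
  · have h1 : v' (σ s) = none := by
      have := (hσ s).mpr (mem_stars.mpr hvs)
      exact mem_stars.mp this
    rw [h1, virt_none]
    rw [hvs, virt_none] at hs
    obtain ⟨i, hi, his⟩ := hs
    exact ⟨i, hi, by simp [F, his]⟩
  · have h1 : v' (σ s) ≠ none := by
      intro h1
      exact hvs (mem_stars.mp ((hσ s).mp (mem_stars.mpr h1)))
    obtain ⟨b, hb⟩ := Option.ne_none_iff_exists'.mp hvs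
    obtain ⟨b', hb'⟩ := Option.ne_none_iff_exists'.mp h1
    have hno : ¬ ∃ i, w i = none ∧ p.1 i = s := by
      intro h2
      exact hvs (by rw [← hs]; exact virt_none.mpr h2)
    have hno' : ¬ ∃ i, w i = none ∧ (F p).1 i = σ s := by
      rintro ⟨i, hi, his⟩
      exact hno ⟨i, hi, σ.injective (by simpa [F] using his)⟩
    have h2 : virt p.1 p.2 w s = some (xor (p.2 s) (par p.1 w s)) := by
      unfold virt; rw [if_neg hno]
    have h3 : virt (F p).1 (F p).2 w (σ s)
        = some (xor ((F p).2 (σ s)) (par (F p).1 w (σ s))) := by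
      unfold virt; rw [if_neg hno']
    rw [h3, hb']
    have h4 : par (F p).1 w (σ s) = par p.1 w s := par_perm σ p.1 w s
    have h5 : (F p).2 (σ s) = xor (p.2 s) (xor b' b) := by
      simp [F, y, hb, hb']
    rw [h4, h5]
    rw [h2, hb] at hs
    have h6 := Option.some.inj hs
    congr 1
    rw [← h6]
    cases p.2 s <;> cases par p.1 w s <;> cases b' <;> rfl

lemma cnt_mul_le (w : W n) {v : W m} {l : ℕ} (hv : (stars v).card = l) :
    (cnt w v).card * (words m l).card ≤ Fintype.card (Om n m) := by
  classical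
  have h1 : ∑ v' ∈ words m l, (cnt w v').card ≤ Fintype.card (Om n m) := by
    rw [← card_biUnion]
    · exact card_le_univ _
    · intro a _ b _ hab
      rw [Function.onFun, disjoint_left]
      intro p hp hp'
      rw [cnt, mem_filter] at hp hp'
      exact hab (hp.2.symm.trans hp'.2)
  calc (cnt w v).card * (words m l).card = ∑ _v' ∈ words m l, (cnt w v).card := by
        rw [sum_const, smul_eq_mul, mul_comm]
    _ ≤ ∑ v' ∈ words m l, (cnt w v').card :=
        sum_le_sum (fun v' hv' => cnt_le w (by rw [hv, mem_words.mp hv']))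
    _ ≤ _ := h1

/-- two coordinates get the same type -/
lemma card_same {i j : Fin n} (hij : i ≠ j) :
    (univ.filter (fun τ : Fin n → Fin m => τ i = τ j)).card * m
      ≤ Fintype.card (Fin n → Fin m) := by
  classical
  have h1 : (univ.filter (fun τ : Fin n → Fin m => τ i = τ j)).card * m
      = ((univ.filter (fun τ : Fin n → Fin m => τ i = τ j)) ×ˢ (univ : Finset (Fin m))).card := by
    rw [card_product, card_univ, Fintype.card_fin]
  rw [h1, ← card_univ]
  refine card_le_card_of_injOn (fun p => Function.update p.1 j p.2) (fun _ _ => by simp) ?_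
  rintro ⟨τ, s⟩ hp ⟨τ', s'⟩ hp' h
  simp only [coe_product, Set.mem_prod, mem_coe, mem_filter, mem_univ, true_and, and_true] at hp hp'
  simp only at h
  have hs : s = s' := by
    have := congrFun h j
    simpa using this
  have hτ : τ = τ' := by
    funext k
    by_cases hk : k = j
    · have h2 := congrFun h i
      rw [Function.update_of_ne hij, Function.update_of_ne hij] at h2
      rw [hk, ← hp, ← hp', h2]
    · have := congrFun h k
      rwa [Function.update_of_ne hk, Function.update_of_ne hk] at this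
  rw [hs, hτ]

lemma card_not_inj (A : Finset (Fin n)) :
    (univ.filter (fun τ : Fin n → Fin m => ¬ Set.InjOn τ (A : Set (Fin n)))).card * m
      ≤ A.card.choose 2 * Fintype.card (Fin n → Fin m) := by
  classical
  have h1 : univ.filter (fun τ : Fin n → Fin m => ¬ Set.InjOn τ (A : Set (Fin n)))
      ⊆ (A.powersetCard 2).biUnion
        (fun P => univ.filter (fun τ : Fin n → Fin m => ∀ i ∈ P, ∀ j ∈ P, τ i = τ j)) := by
    intro τ hτ
    rw [mem_filter] at hτ
    have h2 := hτ.2
    unfold Set.InjOn at h2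
    push Not at h2
    obtain ⟨i, hi, j, hj, hij, hne⟩ := h2
    rw [mem_biUnion]
    refine ⟨{i, j}, ?_, ?_⟩
    · rw [mem_powersetCard]
      refine ⟨?_, card_pair hne⟩
      intro k hk
      rw [mem_insert, mem_singleton] at hk
      rcases hk with rfl | rfl
      · exact hi
      · exact hj
    · rw [mem_filter]
      refine ⟨mem_univ _, ?_⟩
      intro a ha b hb
      rw [mem_insert, mem_singleton] at ha hb
      rcases ha with rfl | rfl <;> rcases hb with rfl | rfl <;> simp [hij]
  have h3 : ∀ P ∈ A.powersetCard 2,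
      (univ.filter (fun τ : Fin n → Fin m => ∀ i ∈ P, ∀ j ∈ P, τ i = τ j)).card * m
        ≤ Fintype.card (Fin n → Fin m) := by
    intro P hP
    rw [mem_powersetCard] at hP
    obtain ⟨i, j, hij, rfl⟩ := card_eq_two.mp hP.2
    refine le_trans (Nat.mul_le_mul_right _ (card_le_card ?_)) (card_same (m := m) hij)
    intro τ hτ
    rw [mem_filter] at hτ ⊢
    exact ⟨hτ.1, hτ.2 i (by simp) j (by simp)⟩
  calc _ ≤ ((A.powersetCard 2).biUnion
        (fun P => univ.filter (fun τ : Fin n → Fin m => ∀ i ∈ P, ∀ j ∈ P, τ i = τ j))).card * m := by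
        gcongr
    _ ≤ (∑ P ∈ A.powersetCard 2,
        (univ.filter (fun τ : Fin n → Fin m => ∀ i ∈ P, ∀ j ∈ P, τ i = τ j)).card) * m := by
        gcongr
        exact card_biUnion_le
    _ = ∑ P ∈ A.powersetCard 2,
        (univ.filter (fun τ : Fin n → Fin m => ∀ i ∈ P, ∀ j ∈ P, τ i = τ j)).card * m := by
        rw [sum_mul]
    _ ≤ ∑ P ∈ A.powersetCard 2, Fintype.card (Fin n → Fin m) := sum_le_sum h3
    _ = _ := by rw [sum_const, card_powersetCard, smul_eq_mul]

end count

/-- **Step.** -/
theorem f_step {n m d l : ℕ} (hm : 0 < m) (hlm : l ≤ m) {S₀ : Finset (W m)}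
    (h₀ : WCov d l S₀) {S₁ : Finset (W n)} (h₁ : MCov d l S₁) :
    (f n d l : ℝ) ≤ (S₀.card / (words m l).card : ℝ) * (words n l).card
      + ((l.choose 2 : ℝ) / m) * S₁.card := by
  classical
  have : NeZero m := ⟨hm.ne'⟩
  have hm' : (0 : ℝ) < m := by exact_mod_cast hm
  let S : Om n m → Finset (W n) := fun p =>
    ((words n l).filter (fun w => virt p.1 p.2 w ∈ S₀))
      ∪ (S₁.filter (fun w => ¬ Set.InjOn p.1 (stars w : Set (Fin n))))
  have hS : ∀ p, WCov d l (S p) := by
    intro p
    refine ⟨fun w hw => ?_, fun x hx => ?_⟩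
    · rcases mem_union.mp hw with hw | hw
      · exact mem_words.mp (mem_filter.mp hw).1
      · exact h₁.1 w (mem_filter.mp hw).1
    · by_cases hinj : Set.InjOn p.1 (stars x : Set (Fin n))
      · have hc : (stars (virt p.1 p.2 x)).card = d := by
          rw [stars_virt, card_image_of_injOn hinj, hx]
        obtain ⟨v, hv, hvx⟩ := h₀.2 _ hc
        obtain ⟨w, hwx, hwv, hwc⟩ := exists_lift hinj hvx
        refine ⟨w, mem_union_left _ (mem_filter.mpr ⟨mem_words.mpr ?_, by rw [hwv]; exact hv⟩), hwx⟩
        rw [hwc, h₀.1 v hv]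
      · unfold Set.InjOn at hinj
        push Not at hinj
        obtain ⟨i, hi, j, hj, hij, hne⟩ := hinj
        obtain ⟨w, hw, hwx, hwi, hwj⟩ := h₁.2 x hx i (mem_coe.mp hi) j (mem_coe.mp hj) hne
        refine ⟨w, mem_union_right _ (mem_filter.mpr ⟨hw, fun h => hne ?_⟩), hwx⟩
        exact h (mem_coe.mpr hwi) (mem_coe.mpr hwj) hij
  have hwpos : (0 : ℝ) < (words m l).card := by
    rw [card_words]
    have := Nat.choose_pos hlm
    positivity
  set T : ℝ := ((Fintype.card (Om n m) : ℕ) : ℝ) with hT
  have hTpos : 0 < T := by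
    rw [hT]; exact_mod_cast Fintype.card_pos
  -- the two sums
  have hA : ∑ p : Om n m, (((words n l).filter (fun w => virt p.1 p.2 w ∈ S₀)).card : ℝ)
      ≤ (words n l).card * (S₀.card / (words m l).card * T) := by
    have h1 : ∑ p : Om n m, ((words n l).filter (fun w => virt p.1 p.2 w ∈ S₀)).card
        = ∑ w ∈ words n l, (univ.filter (fun p : Om n m => virt p.1 p.2 w ∈ S₀)).card :=
      sum_card_bipartiteAbove_eq_sum_card_bipartiteBelow
        (fun (p : Om n m) (w : W n) => virt p.1 p.2 w ∈ S₀)
    have h2 : ∀ w ∈ words n l,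
        ((univ.filter (fun p : Om n m => virt p.1 p.2 w ∈ S₀)).card : ℝ)
          ≤ S₀.card / (words m l).card * T := by
      intro w _
      have h3 : univ.filter (fun p : Om n m => virt p.1 p.2 w ∈ S₀)
          = S₀.biUnion (fun v => cnt w v) := by
        ext p
        simp [cnt]
      rw [div_mul_eq_mul_div, le_div_iff₀ hwpos, h3]
      have h4 : (S₀.biUnion (fun v => cnt w v)).card * (words m l).card
          ≤ S₀.card * Fintype.card (Om n m) := by
        calc (S₀.biUnion (fun v => cnt w v)).card * (words m l).card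
            ≤ (∑ v ∈ S₀, (cnt w v).card) * (words m l).card := by
              gcongr; exact card_biUnion_le
          _ = ∑ v ∈ S₀, (cnt w v).card * (words m l).card := by rw [sum_mul]
          _ ≤ ∑ v ∈ S₀, Fintype.card (Om n m) :=
              sum_le_sum (fun v hv => cnt_mul_le w (h₀.1 v hv))
          _ = _ := by rw [sum_const, smul_eq_mul]
      rw [hT]
      exact_mod_cast h4
    calc _ = ((∑ p : Om n m, ((words n l).filter (fun w => virt p.1 p.2 w ∈ S₀)).card : ℕ) : ℝ) := by
          push_cast; rfl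
      _ = ∑ w ∈ words n l, ((univ.filter (fun p : Om n m => virt p.1 p.2 w ∈ S₀)).card : ℝ) := by
          rw [h1]; push_cast; rfl
      _ ≤ ∑ w ∈ words n l, (S₀.card / (words m l).card * T : ℝ) := sum_le_sum h2
      _ = _ := by rw [sum_const, nsmul_eq_mul]
  have hB : ∑ p : Om n m,
      ((S₁.filter (fun w => ¬ Set.InjOn p.1 (stars w : Set (Fin n)))).card : ℝ)
      ≤ S₁.card * ((l.choose 2 : ℝ) / m * T) := by
    have h1 : ∑ p : Om n m, (S₁.filter (fun w => ¬ Set.InjOn p.1 (stars w : Set (Fin n)))).card
        = ∑ w ∈ S₁, (univ.filter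
          (fun p : Om n m => ¬ Set.InjOn p.1 (stars w : Set (Fin n)))).card :=
      sum_card_bipartiteAbove_eq_sum_card_bipartiteBelow
        (fun (p : Om n m) (w : W n) => ¬ Set.InjOn p.1 (stars w : Set (Fin n)))
    have h2 : ∀ w ∈ S₁,
        ((univ.filter (fun p : Om n m => ¬ Set.InjOn p.1 (stars w : Set (Fin n)))).card : ℝ)
          ≤ (l.choose 2 : ℝ) / m * T := by
      intro w hw
      have h3 : univ.filter (fun p : Om n m => ¬ Set.InjOn p.1 (stars w : Set (Fin n)))
          = (univ.filter (fun τ : Fin n → Fin m => ¬ Set.InjOn τ (stars w : Set (Fin n))))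
            ×ˢ (univ : Finset (Fin m → Bool)) := by
        ext p
        simp
      have h4 := card_not_inj (m := m) (stars w)
      rw [h₁.1 w hw] at h4
      rw [h3, card_product, div_mul_eq_mul_div, le_div_iff₀ hm', hT, card_univ, Fintype.card_prod]
      have h5 : (((univ.filter (fun τ : Fin n → Fin m =>
          ¬ Set.InjOn τ (stars w : Set (Fin n)))).card * m : ℕ) : ℝ)
          ≤ ((l.choose 2 * Fintype.card (Fin n → Fin m) : ℕ) : ℝ) := by exact_mod_cast h4
      push_cast at h5 ⊢
      have h6 : (0 : ℝ) ≤ (Fintype.card (Fin m → Bool) : ℝ) := by positivity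
      simp only [Fintype.card_fun, Fintype.card_fin, Fintype.card_bool] at h5 h6 ⊢
      push_cast at h5 h6 ⊢
      nlinarith
    calc _ = ((∑ p : Om n m,
        (S₁.filter (fun w => ¬ Set.InjOn p.1 (stars w : Set (Fin n)))).card : ℕ) : ℝ) := by
          push_cast; rfl
      _ = ∑ w ∈ S₁, ((univ.filter
          (fun p : Om n m => ¬ Set.InjOn p.1 (stars w : Set (Fin n)))).card : ℝ) := by
          rw [h1]; push_cast; rfl
      _ ≤ ∑ w ∈ S₁, ((l.choose 2 : ℝ) / m * T) := sum_le_sum h2
      _ = _ := by rw [sum_const, nsmul_eq_mul]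
  have hsum : ∑ p : Om n m, ((S p).card : ℝ)
      ≤ ∑ _p : Om n m, ((S₀.card / (words m l).card : ℝ) * (words n l).card
        + ((l.choose 2 : ℝ) / m) * S₁.card) := by
    calc ∑ p : Om n m, ((S p).card : ℝ)
        ≤ ∑ p : Om n m, ((((words n l).filter (fun w => virt p.1 p.2 w ∈ S₀)).card : ℝ)
          + ((S₁.filter (fun w => ¬ Set.InjOn p.1 (stars w : Set (Fin n)))).card : ℝ)) := by
          refine sum_le_sum (fun p _ => ?_)
          have := card_union_le ((words n l).filter (fun w => virt p.1 p.2 w ∈ S₀))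
            (S₁.filter (fun w => ¬ Set.InjOn p.1 (stars w : Set (Fin n))))
          exact_mod_cast this
      _ ≤ (words n l).card * (S₀.card / (words m l).card * T)
          + S₁.card * ((l.choose 2 : ℝ) / m * T) := by
          rw [sum_add_distrib]
          exact add_le_add hA hB
      _ = _ := by
          rw [sum_const, card_univ, nsmul_eq_mul, ← hT]
          ring
  obtain ⟨p, _, hp⟩ := exists_le_of_sum_le (univ_nonempty) hsum
  refine le_trans ?_ hp
  exact_mod_cast f_le_card (hS p)

/-- **Step for densities.** -/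
theorem c_step {n m d l : ℕ} (hlm : l ≤ m) (hm : 0 < m) (hln : l ≤ n) (hld : l ≤ d)
    {S₁ : Finset (W n)} (h₁ : MCov d l S₁) :
    c n d l ≤ c m d l + ((l.choose 2 : ℝ) / m) * (S₁.card / (words n l).card) := by
  obtain ⟨S₀, h₀, hc⟩ := exists_wcov_card_f (n := m) hld
  have h := f_step hm hlm h₀ h₁
  have hwn : (0 : ℝ) < (words n l).card := by
    rw [card_words]
    have := Nat.choose_pos hln
    positivity
  have e1 : c n d l = f n d l / (words n l).card := by
    unfold c; rw [card_words]; push_cast; rfl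
  have e2 : c m d l = f m d l / (words m l).card := by
    unfold c; rw [card_words]; push_cast; rfl
  rw [e1, e2, div_le_iff₀ hwn, ← hc]
  refine h.trans (le_of_eq ?_)
  field_simp

end Pool.Agent.Lib.MP_7c0edd_co.Blow
end

section
/-!
# Blow-up of a covering set of a small cube: exact probabilities
-/
set_option autoImplicit false

namespace Pool.Agent.Lib.MP_7c0edd_co.Blow

open Finset Pool.Agent.Lib.MP_7c0edd_co.H21

variable {n m : ℕ}

/-- functions which are injective on a set -/
def injs (A : Finset (Fin n)) : Finset (Fin n → Fin m) :=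
  univ.filter (fun τ : Fin n → Fin m => Set.InjOn τ (A : Set (Fin n)))

lemma card_injs (A : Finset (Fin n)) :
    (injs (m := m) A).card * m ^ A.card = m.descFactorial A.card * Fintype.card (Fin n → Fin m) := by
  classical
  -- restriction to `A` and to the complement
  let e : (Fin n → Fin m) ≃ ({i // i ∈ A} → Fin m) × ({i // ¬ i ∈ A} → Fin m) :=
    Equiv.piEquivPiSubtypeProd (fun i => i ∈ A) (fun _ => Fin m)
  have h1 : (injs (m := m) A).card
      = ((univ.filter (fun g : {i // i ∈ A} → Fin m => Function.Injective g)) ×ˢ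
        (univ : Finset ({i // ¬ i ∈ A} → Fin m))).card := by
    refine card_bij (fun τ _ => e τ) ?_ ?_ ?_
    · intro τ hτ
      rw [injs, mem_filter] at hτ
      rw [mem_product, mem_filter]
      refine ⟨⟨mem_univ _, ?_⟩, mem_univ _⟩
      intro a b hab
      exact Subtype.ext (hτ.2 (mem_coe.mpr a.2) (mem_coe.mpr b.2) hab)
    · intro a _ b _ hab
      exact e.injective hab
    · intro b hb
      rw [mem_product, mem_filter] at hb
      refine ⟨e.symm b, ?_, e.apply_symm_apply b⟩
      rw [injs, mem_filter]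
      refine ⟨mem_univ _, ?_⟩
      intro i hi j hj hij
      have h2 : (e (e.symm b)).1 ⟨i, hi⟩ = (e (e.symm b)).1 ⟨j, hj⟩ := hij
      rw [e.apply_symm_apply] at h2
      exact congrArg Subtype.val (hb.1.2 h2)
  have h2 : (univ.filter (fun g : {i // i ∈ A} → Fin m => Function.Injective g)).card
      = m.descFactorial A.card := by
    have h3 : Fintype.card ({i // i ∈ A} ↪ Fin m) = m.descFactorial A.card := by
      rw [Fintype.card_embedding_eq, Fintype.card_fin, Fintype.card_coe]
    rw [← h3, ← card_univ]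
    refine (card_bij (fun (g : {i // i ∈ A} ↪ Fin m) _ => (g : {i // i ∈ A} → Fin m)) ?_ ?_ ?_).symm
    · intro g _
      exact mem_filter.mpr ⟨mem_univ _, g.injective⟩
    · intro a _ b _ hab
      exact DFunLike.coe_injective hab
    · intro g hg
      exact ⟨⟨g, (mem_filter.mp hg).2⟩, mem_univ _, rfl⟩
  have h4 : Fintype.card (Fin n → Fin m)
      = m ^ A.card * Fintype.card ({i // ¬ i ∈ A} → Fin m) := by
    rw [Fintype.card_congr e, Fintype.card_prod]
    congr 1
    rw [Fintype.card_fun, Fintype.card_fin, Fintype.card_coe]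
  rw [h1, card_product, h2, h4, card_univ]
  ring

/-- The refined step: `p = m (m - 1) ... (m - l + 1) / m ^ l`. -/
theorem f_step' {d l : ℕ} (hm : 0 < m) (hlm : l ≤ m) {S₀ : Finset (W m)}
    (h₀ : WCov d l S₀) {S₁ : Finset (W n)} (h₁ : MCov d l S₁) :
    (f n d l : ℝ) ≤ (m.descFactorial l / m ^ l : ℝ) * ((S₀.card / (words m l).card : ℝ)
      * (words n l).card) + (1 - (m.descFactorial l / m ^ l : ℝ)) * S₁.card := by
  classical
  have : NeZero m := ⟨hm.ne'⟩
  have hm' : (0 : ℝ) < m := by exact_mod_cast hm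
  let S : Om n m → Finset (W n) := fun p =>
    ((words n l).filter (fun w => virt p.1 p.2 w ∈ S₀))
      ∪ (S₁.filter (fun w => ¬ Set.InjOn p.1 (stars w : Set (Fin n))))
  have hS : ∀ p, WCov d l (S p) := by
    intro p
    refine ⟨fun w hw => ?_, fun x hx => ?_⟩
    · rcases mem_union.mp hw with hw | hw
      · exact mem_words.mp (mem_filter.mp hw).1
      · exact h₁.1 w (mem_filter.mp hw).1
    · by_cases hinj : Set.InjOn p.1 (stars x : Set (Fin n))
      · have hc : (stars (virt p.1 p.2 x)).card = d := by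
          rw [stars_virt, card_image_of_injOn hinj, hx]
        obtain ⟨v, hv, hvx⟩ := h₀.2 _ hc
        obtain ⟨w, hwx, hwv, hwc⟩ := exists_lift hinj hvx
        refine ⟨w, mem_union_left _ (mem_filter.mpr ⟨mem_words.mpr ?_, by rw [hwv]; exact hv⟩), hwx⟩
        rw [hwc, h₀.1 v hv]
      · unfold Set.InjOn at hinj
        push Not at hinj
        obtain ⟨i, hi, j, hj, hij, hne⟩ := hinj
        obtain ⟨w, hw, hwx, hwi, hwj⟩ := h₁.2 x hx i (mem_coe.mp hi) j (mem_coe.mp hj) hne
        refine ⟨w, mem_union_right _ (mem_filter.mpr ⟨hw, fun h => hne ?_⟩), hwx⟩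
        exact h (mem_coe.mpr hwi) (mem_coe.mpr hwj) hij
  have hwpos : (0 : ℝ) < (words m l).card := by
    rw [card_words]
    have := Nat.choose_pos hlm
    positivity
  set T : ℝ := ((Fintype.card (Om n m) : ℕ) : ℝ) with hT
  have hTpos : 0 < T := by
    rw [hT]; exact_mod_cast Fintype.card_pos
  set q : ℝ := (m.descFactorial l / m ^ l : ℝ) with hq
  -- number of choices which are injective on the stars
  have hinjs : ∀ w : W n, (stars w).card = l →
      ((univ.filter (fun p : Om n m => Set.InjOn p.1 (stars w : Set (Fin n)))).card : ℝ)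
        = q * T := by
    intro w hw
    have h3 : univ.filter (fun p : Om n m => Set.InjOn p.1 (stars w : Set (Fin n)))
        = (injs (m := m) (stars w)) ×ˢ (univ : Finset (Fin m → Bool)) := by
      ext p
      simp [injs]
    have h4 := card_injs (m := m) (stars w)
    rw [hw] at h4
    have h5 : ((injs (m := m) (stars w)).card : ℝ) * (m : ℝ) ^ l
        = (m.descFactorial l : ℝ) * (Fintype.card (Fin n → Fin m) : ℝ) := by exact_mod_cast h4
    have hml : (0 : ℝ) < (m : ℝ) ^ l := by positivity
    rw [h3, card_product, hT, card_univ, Fintype.card_prod, hq, div_mul_eq_mul_div,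
      eq_div_iff hml.ne']
    push_cast
    linear_combination (Fintype.card (Fin m → Bool) : ℝ) * h5
  have hcnt : ∀ w : W n, (stars w).card = l → ∀ v : W m, (stars v).card = l →
      ((cnt w v).card : ℝ) * (words m l).card ≤ q * T := by
    intro w hw v hv
    rw [← hinjs w hw]
    have h1 : ∑ v' ∈ words m l, (cnt w v').card
        ≤ (univ.filter (fun p : Om n m => Set.InjOn p.1 (stars w : Set (Fin n)))).card := by
      rw [← card_biUnion]
      · refine card_le_card ?_
        intro p hp
        rw [mem_biUnion] at hp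
        obtain ⟨v', hv', hp⟩ := hp
        rw [cnt, mem_filter] at hp
        refine mem_filter.mpr ⟨mem_univ _, ?_⟩
        have h2 : ((stars w).image p.1).card = (stars w).card := by
          rw [← stars_virt p.1 p.2, hp.2, mem_words.mp hv', hw]
        exact card_image_iff.mp h2
      · intro a _ b _ hab
        rw [Function.onFun, disjoint_left]
        intro p hp hp'
        rw [cnt, mem_filter] at hp hp'
        exact hab (hp.2.symm.trans hp'.2)
    have h2 : (cnt w v).card * (words m l).card ≤ ∑ v' ∈ words m l, (cnt w v').card := by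
      calc (cnt w v).card * (words m l).card = ∑ _v' ∈ words m l, (cnt w v).card := by
            rw [sum_const, smul_eq_mul, mul_comm]
        _ ≤ _ := sum_le_sum (fun v' hv' => cnt_le w (by rw [hv, mem_words.mp hv']))
    exact_mod_cast h2.trans h1
  -- the two sums
  have hA : ∑ p : Om n m, (((words n l).filter (fun w => virt p.1 p.2 w ∈ S₀)).card : ℝ)
      ≤ (words n l).card * (S₀.card / (words m l).card * (q * T)) := by
    have h1 : ∑ p : Om n m, ((words n l).filter (fun w => virt p.1 p.2 w ∈ S₀)).card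
        = ∑ w ∈ words n l, (univ.filter (fun p : Om n m => virt p.1 p.2 w ∈ S₀)).card :=
      sum_card_bipartiteAbove_eq_sum_card_bipartiteBelow
        (fun (p : Om n m) (w : W n) => virt p.1 p.2 w ∈ S₀)
    have h2 : ∀ w ∈ words n l,
        ((univ.filter (fun p : Om n m => virt p.1 p.2 w ∈ S₀)).card : ℝ)
          ≤ S₀.card / (words m l).card * (q * T) := by
      intro w hw
      have h3 : univ.filter (fun p : Om n m => virt p.1 p.2 w ∈ S₀)
          = S₀.biUnion (fun v => cnt w v) := by
        ext p
        simp [cnt]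
      rw [div_mul_eq_mul_div, le_div_iff₀ hwpos, h3]
      calc ((S₀.biUnion (fun v => cnt w v)).card : ℝ) * (words m l).card
          ≤ (∑ v ∈ S₀, ((cnt w v).card : ℝ)) * (words m l).card := by
            gcongr
            exact_mod_cast card_biUnion_le
        _ = ∑ v ∈ S₀, ((cnt w v).card : ℝ) * (words m l).card := by rw [sum_mul]
        _ ≤ ∑ v ∈ S₀, q * T :=
            sum_le_sum (fun v hv => hcnt w (mem_words.mp hw) v (h₀.1 v hv))
        _ = _ := by rw [sum_const, nsmul_eq_mul]
    calc _ = ((∑ p : Om n m, ((words n l).filter (fun w => virt p.1 p.2 w ∈ S₀)).card : ℕ) : ℝ) := by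
          push_cast; rfl
      _ = ∑ w ∈ words n l, ((univ.filter (fun p : Om n m => virt p.1 p.2 w ∈ S₀)).card : ℝ) := by
          rw [h1]; push_cast; rfl
      _ ≤ ∑ w ∈ words n l, (S₀.card / (words m l).card * (q * T) : ℝ) := sum_le_sum h2
      _ = _ := by rw [sum_const, nsmul_eq_mul]
  have hB : ∑ p : Om n m,
      ((S₁.filter (fun w => ¬ Set.InjOn p.1 (stars w : Set (Fin n)))).card : ℝ)
      = S₁.card * ((1 - q) * T) := by
    have h1 : ∑ p : Om n m, (S₁.filter (fun w => ¬ Set.InjOn p.1 (stars w : Set (Fin n)))).card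
        = ∑ w ∈ S₁, (univ.filter
          (fun p : Om n m => ¬ Set.InjOn p.1 (stars w : Set (Fin n)))).card :=
      sum_card_bipartiteAbove_eq_sum_card_bipartiteBelow
        (fun (p : Om n m) (w : W n) => ¬ Set.InjOn p.1 (stars w : Set (Fin n)))
    have h2 : ∀ w ∈ S₁,
        ((univ.filter (fun p : Om n m => ¬ Set.InjOn p.1 (stars w : Set (Fin n)))).card : ℝ)
          = (1 - q) * T := by
      intro w hw
      have h3 := card_filter_add_card_filter_not (s := (univ : Finset (Om n m)))
        (fun p => Set.InjOn p.1 (stars w : Set (Fin n)))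
      have h4 := hinjs w (h₁.1 w hw)
      have h5 : ((univ.filter (fun p : Om n m => Set.InjOn p.1 (stars w : Set (Fin n)))).card : ℝ)
          + ((univ.filter (fun p : Om n m => ¬ Set.InjOn p.1 (stars w : Set (Fin n)))).card : ℝ)
          = T := by
        rw [hT, ← card_univ]
        exact_mod_cast h3
      linarith
    calc _ = ((∑ p : Om n m,
        (S₁.filter (fun w => ¬ Set.InjOn p.1 (stars w : Set (Fin n)))).card : ℕ) : ℝ) := by
          push_cast; rfl
      _ = ∑ w ∈ S₁, ((univ.filter
          (fun p : Om n m => ¬ Set.InjOn p.1 (stars w : Set (Fin n)))).card : ℝ) := by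
          rw [h1]; push_cast; rfl
      _ = ∑ w ∈ S₁, ((1 - q) * T) := sum_congr rfl h2
      _ = _ := by rw [sum_const, nsmul_eq_mul]
  have hsum : ∑ p : Om n m, ((S p).card : ℝ)
      ≤ ∑ _p : Om n m, (q * ((S₀.card / (words m l).card : ℝ) * (words n l).card)
        + (1 - q) * S₁.card) := by
    calc ∑ p : Om n m, ((S p).card : ℝ)
        ≤ ∑ p : Om n m, ((((words n l).filter (fun w => virt p.1 p.2 w ∈ S₀)).card : ℝ)
          + ((S₁.filter (fun w => ¬ Set.InjOn p.1 (stars w : Set (Fin n)))).card : ℝ)) := by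
          refine sum_le_sum (fun p _ => ?_)
          have := card_union_le ((words n l).filter (fun w => virt p.1 p.2 w ∈ S₀))
            (S₁.filter (fun w => ¬ Set.InjOn p.1 (stars w : Set (Fin n))))
          exact_mod_cast this
      _ ≤ (words n l).card * (S₀.card / (words m l).card * (q * T))
          + S₁.card * ((1 - q) * T) := by
          rw [sum_add_distrib]
          exact add_le_add hA hB.le
      _ = _ := by
          rw [sum_const, card_univ, nsmul_eq_mul, ← hT]
          ring
  obtain ⟨p, _, hp⟩ := exists_le_of_sum_le (univ_nonempty) hsum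
  refine le_trans ?_ hp
  exact_mod_cast f_le_card (hS p)

/-- The refined step for densities. -/
theorem c_step' {d l : ℕ} (hlm : l ≤ m) (hm : 0 < m) (hln : l ≤ n) (hld : l ≤ d)
    {S₁ : Finset (W n)} (h₁ : MCov d l S₁) :
    c n d l ≤ (m.descFactorial l / m ^ l : ℝ) * c m d l
      + (1 - (m.descFactorial l / m ^ l : ℝ)) * (S₁.card / (words n l).card) := by
  obtain ⟨S₀, h₀, hc⟩ := exists_wcov_card_f (n := m) hld
  have h := f_step' hm hlm h₀ h₁
  have hwn : (0 : ℝ) < (words n l).card := by
    rw [card_words]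
    have := Nat.choose_pos hln
    positivity
  have e1 : c n d l = f n d l / (words n l).card := by
    unfold c; rw [card_words]; push_cast; rfl
  have e2 : c m d l = f m d l / (words m l).card := by
    unfold c; rw [card_words]; push_cast; rfl
  rw [e1, e2, div_le_iff₀ hwn, ← hc]
  refine h.trans (le_of_eq ?_)
  field_simp

end Pool.Agent.Lib.MP_7c0edd_co.Blow
end

section
/-!
# Blow-ups and the limiting density
-/
set_option autoImplicit false

namespace Pool.Agent.Lib.MP_7c0edd_co.Blow

open Finset Pool.Agent.Lib.MP_7c0edd_co.H21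

/-- all words -/
lemma mcov_words {n d l : ℕ} (hl : 2 ≤ l) (hld : l ≤ d) : MCov d l (words n l) := by
  classical
  refine ⟨fun w hw => mem_words.mp hw, fun x hx i hi j hj hij => ?_⟩
  obtain ⟨T, h1, hT, hTl⟩ := exists_subsuperset_card_eq
    (s := {i, j}) (t := stars x) (n := l) (by
      intro k hk
      rw [mem_insert, mem_singleton] at hk
      rcases hk with rfl | rfl
      · exact hi
      · exact hj) (by rw [card_pair hij]; exact hl) (by omega)
  refine ⟨fun k => if k ∈ T then none else some ((x k).getD false), ?_, ?_, ?_, ?_⟩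
  · rw [mem_words, ← hTl]
    congr 1
    ext k
    rw [mem_stars]
    by_cases h : k ∈ T <;> simp [h]
  · intro k
    rcases hx' : x k with _ | b
    · exact Or.inl rfl
    · right
      have : k ∉ T := fun hk => by
        have := hT hk
        rw [mem_stars, hx'] at this
        exact absurd this (by simp)
      simp [this, hx']
  · rw [mem_stars]
    simp [h1 (mem_insert_self i {j})]
  · rw [mem_stars]
    simp [h1 (mem_insert_of_mem (mem_singleton_self j))]

/-- the probability that `l` types out of `m` are distinct -/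
noncomputable def pin (m l : ℕ) : ℝ := m.descFactorial l / m ^ l

lemma pin_nonneg (m l : ℕ) : 0 ≤ pin m l := by unfold pin; positivity

lemma pin_le_one (m l : ℕ) : pin m l ≤ 1 := by
  unfold pin
  refine div_le_one_of_le₀ ?_ (by positivity)
  exact_mod_cast Nat.descFactorial_le_pow m l

/-- `pin m l ≥ 1 - (l choose 2) / m` -/
lemma one_sub_pin_le {m l : ℕ} (hm : 0 < m) : 1 - pin m l ≤ (l.choose 2 : ℝ) / m := by
  have hm' : (0 : ℝ) < m := by exact_mod_cast hm
  induction l with
  | zero => simp [pin]
  | succ l ih =>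
    have h1 : pin m (l + 1) = pin m l * (((m - l : ℕ) : ℝ) / m) := by
      unfold pin
      rw [Nat.descFactorial_succ, pow_succ]
      push_cast
      field_simp
    have h2 : (((l + 1).choose 2 : ℕ) : ℝ) = l.choose 2 + l := by
      have : (l + 1).choose 2 = l.choose 2 + l := by
        rw [Nat.choose_succ_succ' l 1, Nat.choose_one_right]; ring
      exact_mod_cast this
    rw [h1, h2]
    have h3 : 1 - (l : ℝ) / m ≤ ((m - l : ℕ) : ℝ) / m := by
      rw [le_div_iff₀ hm', sub_mul, div_mul_cancel₀ _ hm'.ne', one_mul]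
      rcases le_or_gt l m with h | h
      · rw [Nat.cast_sub h]
      · have : ((m : ℝ)) < l := by exact_mod_cast h
        have h0 : (0 : ℝ) ≤ ((m - l : ℕ) : ℝ) := by positivity
        linarith
    have h4 := pin_nonneg m l
    have h5 := pin_le_one m l
    have h6 : pin m l * (1 - (l : ℝ) / m) ≤ pin m l * (((m - l : ℕ) : ℝ) / m) := by gcongr
    have h7 : (0 : ℝ) ≤ (l : ℝ) / m := by positivity
    rw [add_div]
    nlinarith

/-- **Blow-up bound for the limit.** `κ` is a density of marked coverings. -/
theorem cLim_le_blow {m d l : ℕ} (hlm : l ≤ m) (hm : 0 < m) (hld : l ≤ d) {κ : ℝ}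
    (hκ : ∀ n, l < n → ∃ S₁ : Finset (W n), MCov d l S₁ ∧
      (S₁.card : ℝ) / (words n l).card ≤ κ) :
    cLim d l ≤ pin m l * c m d l + (1 - pin m l) * κ := by
  unfold cLim
  refine ciSup_le (fun n => ?_)
  have hbig : c n d l ≤ c (max n (l + 1)) d l := c_monotone hld (le_max_left _ _)
  refine hbig.trans ?_
  set N := max n (l + 1) with hN
  have hlN : l < N := by omega
  obtain ⟨S₁, h₁, hc⟩ := hκ N hlN
  have h := c_step' hlm hm (n := N) hlN.le hld h₁
  refine h.trans ?_
  have h5 := pin_le_one m l
  unfold pin at h5 ⊢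
  gcongr

theorem cLim_le_add {m d l : ℕ} (hl : 2 ≤ l) (hlm : l ≤ m) (hld : l ≤ d) :
    cLim d l ≤ c m d l + (l.choose 2 : ℝ) / m := by
  have hm : 0 < m := by omega
  have h := cLim_le_blow hlm hm hld (κ := 1) (fun n hn => ⟨words n l, mcov_words hl hld, by
    have : (0 : ℝ) < (words n l).card := by
      rw [card_words]
      have := Nat.choose_pos hn.le
      positivity
    rw [div_self this.ne']⟩)
  have h1 := one_sub_pin_le (l := l) hm
  have h2 := pin_le_one m l
  have h3 : 0 ≤ c m d l := f_nonneg_c m d l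
  nlinarith

/-- the parity of a word -/
def wpar {n : ℕ} (w : W n) : ℕ := (univ.filter (fun i => w i = some true)).card % 2

/-- words of parity `r` -/
def pw (n l r : ℕ) : Finset (W n) := (words n l).filter (fun w => wpar w = r)

lemma wpar_update {n : ℕ} (w : W n) (k : Fin n) (b : Bool) (hk : w k ≠ some true) :
    wpar (Function.update w k (some b)) = (wpar w + (if b then 1 else 0)) % 2 := by
  classical
  unfold wpar
  rcases b with _ | _
  · have : univ.filter (fun i => Function.update w k (some false) i = some true)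
        = univ.filter (fun i => w i = some true) := by
      ext i
      simp only [mem_filter, mem_univ, true_and]
      by_cases h : i = k
      · subst h; simp [hk]
      · rw [Function.update_of_ne h]
    rw [this]; simp
  · have : univ.filter (fun i => Function.update w k (some true) i = some true)
        = insert k (univ.filter (fun i => w i = some true)) := by
      ext i
      simp only [mem_filter, mem_univ, true_and, mem_insert]
      by_cases h : i = k
      · subst h; simp
      · rw [Function.update_of_ne h]; simp [h]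
    rw [this, card_insert_of_notMem (by simp [hk])]
    simp

lemma stars_update {n : ℕ} (w : W n) (k : Fin n) (b : Bool) :
    stars (Function.update w k (some b)) = (stars w).erase k := by
  ext i
  rw [mem_stars, mem_erase, mem_stars]
  by_cases h : i = k
  · subst h; simp
  · rw [Function.update_of_ne h]; simp [h]

lemma mcov_pw {n d r : ℕ} (hd : 3 ≤ d) (hr : r < 2) : MCov d (d - 1) (pw n (d - 1) r) := by
  classical
  refine ⟨fun w hw => mem_words.mp (mem_filter.mp hw).1, fun x hx i hi j hj hij => ?_⟩
  obtain ⟨k, hk, hki⟩ : ∃ k ∈ stars x, k ∉ ({i, j} : Finset (Fin n)) := by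
    by_contra hcon
    push Not at hcon
    have h1 : stars x ⊆ {i, j} := fun k hk => hcon k hk
    have h2 := card_le_card h1
    rw [card_pair hij, hx] at h2
    omega
  rw [mem_insert, mem_singleton, not_or] at hki
  have hxk : x k = none := mem_stars.mp hk
  let b : Bool := decide (wpar x ≠ r)
  refine ⟨Function.update x k (some b), mem_filter.mpr ⟨?_, ?_⟩, ?_, ?_, ?_⟩
  · rw [mem_words, stars_update, card_erase_of_mem hk, hx]
  · rw [wpar_update x k b (by rw [hxk]; simp)]
    have h2 : wpar x < 2 := Nat.mod_lt _ (by norm_num)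
    by_cases h : wpar x = r
    · simp [b, h]; omega
    · simp [b, h]; omega
  · intro s
    by_cases h : s = k
    · subst h; exact Or.inl hxk
    · right; rw [Function.update_of_ne h]
  · rw [stars_update, mem_erase]; exact ⟨fun h => hki.1 h.symm, hi⟩
  · rw [stars_update, mem_erase]; exact ⟨fun h => hki.2 h.symm, hj⟩

/-- one of the two parity classes has at most half of the words -/
lemma exists_mcov_half {n d : ℕ} (hd : 3 ≤ d) (hn : d - 1 < n) :
    ∃ S₁ : Finset (W n), MCov d (d - 1) S₁ ∧ (S₁.card : ℝ) / (words n (d - 1)).card ≤ 1 / 2 := by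
  classical
  have h1 : (pw n (d - 1) 0).card + (pw n (d - 1) 1).card ≤ (words n (d - 1)).card := by
    rw [← card_union_of_disjoint]
    · exact card_le_card (union_subset (filter_subset _ _) (filter_subset _ _))
    · rw [disjoint_left]
      intro w hw hw'
      have h2 := (mem_filter.mp hw).2
      have h3 := (mem_filter.mp hw').2
      omega
  have hwn : (0 : ℝ) < (words n (d - 1)).card := by
    rw [card_words]
    have := Nat.choose_pos hn.le
    positivity
  have h2 : ((pw n (d - 1) 0).card : ℝ) + (pw n (d - 1) 1).card ≤ (words n (d - 1)).card := by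
    exact_mod_cast h1
  rcases le_total (pw n (d - 1) 0).card (pw n (d - 1) 1).card with h | h
  · have h3 : ((pw n (d - 1) 0).card : ℝ) ≤ (pw n (d - 1) 1).card := by exact_mod_cast h
    refine ⟨_, mcov_pw (r := 0) hd (by norm_num), ?_⟩
    rw [div_le_div_iff₀ hwn (by norm_num)]
    linarith
  · have h3 : ((pw n (d - 1) 1).card : ℝ) ≤ (pw n (d - 1) 0).card := by exact_mod_cast h
    refine ⟨_, mcov_pw (r := 1) hd (by norm_num), ?_⟩
    rw [div_le_div_iff₀ hwn (by norm_num)]
    linarith

/-- **Codimension one.** -/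
theorem cLim_codim_one {m d : ℕ} (hd : 3 ≤ d) (hm : d - 1 ≤ m) :
    cLim d (d - 1) ≤ pin m (d - 1) * c m d (d - 1) + (1 - pin m (d - 1)) / 2 := by
  have h := cLim_le_blow (m := m) (d := d) (l := d - 1) hm (by omega) (by omega) (κ := 1 / 2)
    (fun n hn => exists_mcov_half hd hn)
  linarith

end Pool.Agent.Lib.MP_7c0edd_co.Blow
end

section
/-!
# Small (marked) coverings from random choice and alteration
-/
set_option autoImplicit false

namespace Pool.Agent.Lib.MP_7c0edd_co.Blow

open Finset Pool.Agent.Lib.MP_7c0edd_co.H21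

section abstract

variable {α β : Type*} [DecidableEq α]

/-- a random subset of density `p`, derandomised -/
lemma alteration_aux (p : ℝ) (hp0 : 0 ≤ p) (hp1 : p ≤ 1) (N : β → Finset α) (X : Finset α) :
    ∀ Y : Finset β, ∃ S ⊆ X, (S.card : ℝ) + ((Y.filter (fun y => Disjoint (N y) S)).card : ℝ)
      ≤ p * X.card + ∑ y ∈ Y, (1 - p) ^ (N y ∩ X).card := by
  classical
  induction X using Finset.induction_on with
  | empty =>
    intro Y
    refine ⟨∅, subset_rfl, ?_⟩
    simp
  | insert a X ha ih =>
    intro Y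
    obtain ⟨S1, h1, hS1⟩ := ih (Y.filter (fun y => a ∉ N y))
    obtain ⟨S2, h2, hS2⟩ := ih Y
    set F1 := ∑ y ∈ Y.filter (fun y => a ∉ N y), (1 - p) ^ (N y ∩ X).card with hF1
    set F2 := ∑ y ∈ Y.filter (fun y => ¬ a ∉ N y), (1 - p) ^ (N y ∩ X).card with hF2
    have hF : ∑ y ∈ Y, (1 - p) ^ (N y ∩ X).card = F1 + F2 :=
      (sum_filter_add_sum_filter_not Y (fun y => a ∉ N y) _).symm
    have hG : ∑ y ∈ Y, (1 - p) ^ (N y ∩ insert a X).card = F1 + (1 - p) * F2 := by
      rw [← sum_filter_add_sum_filter_not Y (fun y => a ∉ N y), hF1, hF2, mul_sum]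
      congr 1
      · refine sum_congr rfl (fun y hy => ?_)
        rw [mem_filter] at hy
        rw [inter_insert_of_notMem hy.2]
      · refine sum_congr rfl (fun y hy => ?_)
        rw [mem_filter, not_not] at hy
        rw [inter_insert_of_mem hy.2, card_insert_of_notMem (fun h => ha (mem_inter.mp h).2),
          pow_succ, mul_comm]
    have hcard : ((insert a X).card : ℝ) = X.card + 1 := by
      rw [card_insert_of_notMem ha]; push_cast; rfl
    rw [hG, hcard]
    rw [hF] at hS2
    by_cases hc : ((S1.card : ℝ) + 1)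
        + (((Y.filter (fun y => a ∉ N y)).filter (fun y => Disjoint (N y) S1)).card : ℝ)
        ≤ p * (X.card + 1) + (F1 + (1 - p) * F2)
    · refine ⟨insert a S1, insert_subset_insert a h1, ?_⟩
      have e1 : ((insert a S1).card : ℝ) = S1.card + 1 := by
        rw [card_insert_of_notMem (fun h => ha (h1 h))]; push_cast; rfl
      have e2 : Y.filter (fun y => Disjoint (N y) (insert a S1))
          = (Y.filter (fun y => a ∉ N y)).filter (fun y => Disjoint (N y) S1) := by
        rw [filter_filter]
        refine filter_congr (fun y _ => ?_)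
        rw [disjoint_insert_right]
      rw [e1, e2]
      exact hc
    · refine ⟨S2, h2.trans (subset_insert a X), ?_⟩
      by_contra hd
      push Not at hc hd
      have h3 : (1 - p) * (F2 - 1) < 0 := by linarith
      have h4 : 0 < p * (F2 - 1) := by linarith
      rcases le_or_gt F2 1 with h5 | h5
      · have := mul_nonneg hp0 (sub_nonneg.mpr h5)
        linarith
      · have := mul_nonneg (sub_nonneg.mpr hp1) (sub_nonneg.mpr h5.le)
        linarith

/-- every bipartite incidence with left degrees `≤ D` and right degrees `≥ M` has a small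
transversal -/
theorem exists_cover (X : Finset α) (Y : Finset β) (N : β → Finset α) (hN : ∀ y ∈ Y, N y ⊆ X)
    {M D : ℕ} (hM : 0 < M) (hD : 0 < D) (h1 : ∀ y ∈ Y, M ≤ (N y).card)
    (h2 : ∀ x ∈ X, (Y.filter (fun y => x ∈ N y)).card ≤ D) :
    ∃ S ⊆ X, (∀ y ∈ Y, ∃ x ∈ S, x ∈ N y) ∧
      (S.card : ℝ) * M ≤ (1 + Real.log D) * X.card := by
  classical
  have hM' : (0 : ℝ) < M := by exact_mod_cast hM
  have hD' : (1 : ℝ) ≤ D := by exact_mod_cast hD
  have hlog : 0 ≤ Real.log D := Real.log_nonneg hD'
  have hX : (0 : ℝ) ≤ X.card := Nat.cast_nonneg _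
  rcases le_or_gt (Real.log D) M with hle | hgt
  · set p : ℝ := Real.log D / M with hp
    have hp0 : 0 ≤ p := by positivity
    have hp1 : p ≤ 1 := (div_le_one hM').mpr hle
    obtain ⟨S, hS, hSc⟩ := alteration_aux p hp0 hp1 N X Y
    have hYM : (Y.card : ℝ) * M ≤ X.card * D := by
      have h3 : ∑ y ∈ Y, (N y).card = ∑ x ∈ X, (Y.filter (fun y => x ∈ N y)).card := by
        have h4 := sum_card_bipartiteAbove_eq_sum_card_bipartiteBelow (s := Y) (t := X)
          (fun y x => x ∈ N y)
        refine Eq.trans (sum_congr rfl (fun y hy => ?_)) h4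
        congr 1
        ext x
        rw [mem_bipartiteAbove]
        exact ⟨fun h => ⟨hN y hy h, h⟩, fun h => h.2⟩
      have h5 : Y.card * M ≤ X.card * D := by
        calc Y.card * M = ∑ y ∈ Y, M := by rw [sum_const, smul_eq_mul]
          _ ≤ ∑ y ∈ Y, (N y).card := sum_le_sum h1
          _ = ∑ x ∈ X, (Y.filter (fun y => x ∈ N y)).card := h3
          _ ≤ ∑ x ∈ X, D := sum_le_sum h2
          _ = _ := by rw [sum_const, smul_eq_mul]
      exact_mod_cast h5
    have hq : ∑ y ∈ Y, (1 - p) ^ (N y ∩ X).card ≤ Y.card * (1 / D) := by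
      have h6 : ∀ y ∈ Y, (1 - p) ^ (N y ∩ X).card ≤ 1 / (D : ℝ) := by
        intro y hy
        rw [inter_eq_left.mpr (hN y hy)]
        have h7 : (1 - p) ≤ Real.exp (-p) := by
          have := Real.add_one_le_exp (-p); linarith
        calc (1 - p) ^ (N y).card ≤ (1 - p) ^ M :=
              pow_le_pow_of_le_one (by linarith) (by linarith) (h1 y hy)
          _ ≤ Real.exp (-p) ^ M := pow_le_pow_left₀ (by linarith) h7 M
          _ = Real.exp (-Real.log D) := by
              rw [← Real.exp_nat_mul]
              congr 1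
              rw [hp]
              field_simp
          _ = 1 / D := by
              rw [Real.exp_neg, Real.exp_log (by linarith), one_div]
      calc ∑ y ∈ Y, (1 - p) ^ (N y ∩ X).card ≤ ∑ y ∈ Y, 1 / (D : ℝ) := sum_le_sum h6
        _ = _ := by rw [sum_const, nsmul_eq_mul]
    have hex : ∀ y : {y // y ∈ Y}, ∃ x, x ∈ N y.1 := fun y =>
      card_pos.mp (lt_of_lt_of_le hM (h1 y.1 y.2))
    choose g hg using hex
    set U := Y.attach.filter (fun y => Disjoint (N y.1) S) with hU
    have hUc : U.card ≤ (Y.filter (fun y => Disjoint (N y) S)).card := by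
      refine card_le_card_of_injOn (fun y => y.1) ?_ ?_
      · intro y hy
        rw [mem_coe, hU, mem_filter] at hy
        exact mem_coe.mpr (mem_filter.mpr ⟨y.2, hy.2⟩)
      · intro y _ y' _ h
        exact Subtype.ext h
    refine ⟨S ∪ U.image g, union_subset hS ?_, ?_, ?_⟩
    · intro x hx
      obtain ⟨y, _, rfl⟩ := mem_image.mp hx
      exact hN y.1 y.2 (hg y)
    · intro y hy
      by_cases hd : Disjoint (N y) S
      · refine ⟨g ⟨y, hy⟩, mem_union_right _ (mem_image_of_mem _ ?_), hg ⟨y, hy⟩⟩
        rw [hU, mem_filter]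
        exact ⟨mem_attach _ _, hd⟩
      · obtain ⟨x, hx1, hx2⟩ := not_disjoint_iff.mp hd
        exact ⟨x, mem_union_left _ hx2, hx1⟩
    · have h8 : ((S ∪ U.image g).card : ℝ)
          ≤ S.card + ((Y.filter (fun y => Disjoint (N y) S)).card : ℝ) := by
        have := card_union_le S (U.image g)
        have h9 : (U.image g).card ≤ U.card := card_image_le
        exact_mod_cast this.trans (Nat.add_le_add_left (h9.trans hUc) _)
      have h10 : ((S ∪ U.image g).card : ℝ) ≤ p * X.card + Y.card * (1 / D) :=
        h8.trans (hSc.trans (by linarith))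
      have h11 : (Y.card : ℝ) * (1 / D) * M ≤ X.card := by
        have hD0 : (0 : ℝ) < D := by linarith
        rw [mul_one_div, div_mul_eq_mul_div, div_le_iff₀ hD0]
        exact hYM
      have h12 : p * M = Real.log D := by rw [hp]; field_simp
      calc ((S ∪ U.image g).card : ℝ) * M ≤ (p * X.card + Y.card * (1 / D)) * M := by gcongr
        _ = (p * M) * X.card + Y.card * (1 / D) * M := by ring
        _ ≤ Real.log D * X.card + X.card := by rw [h12]; linarith
        _ = _ := by ring
  · refine ⟨X, subset_rfl, ?_, ?_⟩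
    · intro y hy
      have : 0 < (N y).card := lt_of_lt_of_le hM (h1 y hy)
      obtain ⟨x, hx⟩ := card_pos.mp this
      exact ⟨x, hN y hy hx, hx⟩
    · nlinarith

end abstract

/-- the `d`-subcubes above a given `l`-subcube -/
lemma card_above_le {n d l : ℕ} {w : W n} (hw : (stars w).card = l) :
    ((words n d).filter (fun x => Below w x)).card ≤ (n - l).choose (d - l) := by
  classical
  have h4 : ((univ : Finset (Fin n)) \ stars w).card = n - l := by
    rw [card_sdiff_of_subset (subset_univ _), hw, card_univ, Fintype.card_fin]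
  rw [← h4, ← card_powersetCard]
  refine card_le_card_of_injOn (fun x => stars x \ stars w) ?_ ?_
  · intro x hx
    rw [mem_coe, mem_filter, mem_words] at hx
    rw [mem_coe, mem_powersetCard]
    refine ⟨sdiff_subset_sdiff (subset_univ _) subset_rfl, ?_⟩
    rw [card_sdiff_of_subset (stars_subset hx.2), hx.1, hw]
  · intro x hx y hy hxy
    rw [mem_coe, mem_filter, mem_words] at hx hy
    have hst : stars x = stars y := by
      rw [← sdiff_union_of_subset (stars_subset hx.2), ← sdiff_union_of_subset (stars_subset hy.2)]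
      exact congrArg (· ∪ stars w) hxy
    funext i
    by_cases hi : i ∈ stars x
    · have hi' := hi
      rw [hst] at hi'
      rw [mem_stars] at hi hi'
      rw [hi, hi']
    · have hi' := hi
      rw [hst] at hi'
      rw [mem_stars] at hi hi'
      rcases hx.2 i with h5 | h5
      · exact absurd h5 hi
      · rcases hy.2 i with h6 | h6
        · exact absurd h6 hi'
        · rw [← h5, ← h6]

/-- **Marked coverings.** -/
theorem exists_mcov {n d l : ℕ} (hl : 2 ≤ l) (hld : l ≤ d) (hdn : d ≤ n) :
    ∃ S : Finset (W n), MCov d l S ∧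
      (S.card : ℝ) * (2 ^ (d - l) * (d - 2).choose (l - 2))
        ≤ (1 + Real.log ((n - l).choose (d - l) * l.choose 2)) * (words n l).card := by
  classical
  set Y : Finset (W n × Finset (Fin n)) :=
    ((words n d) ×ˢ ((univ : Finset (Fin n)).powersetCard 2)).filter (fun q => q.2 ⊆ stars q.1)
    with hY
  let N : W n × Finset (Fin n) → Finset (W n) := fun q =>
    (words n l).filter (fun w => Below w q.1 ∧ q.2 ⊆ stars w)
  have hN : ∀ q ∈ Y, N q ⊆ words n l := fun q _ => filter_subset _ _
  have hM : 0 < 2 ^ (d - l) * (d - 2).choose (l - 2) :=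
    Nat.mul_pos (pow_pos (by norm_num) _) (Nat.choose_pos (by omega))
  have hD : 0 < (n - l).choose (d - l) * l.choose 2 :=
    Nat.mul_pos (Nat.choose_pos (by omega)) (Nat.choose_pos hl)
  have h1 : ∀ q ∈ Y, 2 ^ (d - l) * (d - 2).choose (l - 2) ≤ (N q).card := by
    intro q hq
    rw [hY, mem_filter, mem_product, mem_words, mem_powersetCard] at hq
    obtain ⟨⟨hq1, _, hq2⟩, hq3⟩ := hq
    have h3 := card_sub1 q.1 (stars q.1 \ q.2) sdiff_subset (d - l)
    rw [card_sdiff_of_subset hq3, hq1, hq2] at h3
    have h4 : (d - 2).choose (d - l) = (d - 2).choose (l - 2) := by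
      rw [← Nat.choose_symm (show l - 2 ≤ d - 2 by omega)]
      congr 1
      omega
    rw [← h4, ← h3]
    refine card_le_card (fun w hw => ?_)
    rw [mem_sub1] at hw
    obtain ⟨hb, hs, hc⟩ := hw
    refine mem_filter.mpr ⟨?_, hb, ?_⟩
    · rw [mem_words]
      have h5 := card_sdiff_of_subset (stars_subset hb)
      have h6 := card_le_card (stars_subset hb)
      omega
    · intro i hi
      by_contra hiw
      exact (mem_sdiff.mp (hs (mem_sdiff.mpr ⟨hq3 hi, hiw⟩))).2 hi
  have h2 : ∀ w ∈ words n l, (Y.filter (fun q => w ∈ N q)).card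
      ≤ (n - l).choose (d - l) * l.choose 2 := by
    intro w hw
    rw [mem_words] at hw
    have h3 : Y.filter (fun q => w ∈ N q)
        ⊆ ((words n d).filter (fun x => Below w x)) ×ˢ ((stars w).powersetCard 2) := by
      intro q hq
      rw [mem_filter, hY, mem_filter, mem_product, mem_powersetCard] at hq
      obtain ⟨⟨⟨hq1, _, hq2⟩, _⟩, hq4⟩ := hq
      obtain ⟨_, hb, hs⟩ := mem_filter.mp hq4
      rw [mem_product, mem_filter, mem_powersetCard]
      exact ⟨⟨hq1, hb⟩, hs, hq2⟩
    refine (card_le_card h3).trans ?_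
    rw [card_product, card_powersetCard, hw]
    exact Nat.mul_le_mul_right _ (card_above_le hw)
  obtain ⟨S, hS, hcov, hcard⟩ := exists_cover (words n l) Y N hN hM hD h1 h2
  refine ⟨S, ⟨fun w hw => mem_words.mp (hS hw), ?_⟩, ?_⟩
  · intro x hx i hi j hj hij
    have hq : (x, ({i, j} : Finset (Fin n))) ∈ Y := by
      rw [hY, mem_filter, mem_product, mem_words, mem_powersetCard]
      refine ⟨⟨hx, subset_univ _, card_pair hij⟩, ?_⟩
      intro k hk
      simp only [mem_insert, mem_singleton] at hk
      rcases hk with rfl | rfl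
      · exact hi
      · exact hj
    obtain ⟨w, hw, hwN⟩ := hcov _ hq
    obtain ⟨_, hb, hs⟩ := mem_filter.mp hwN
    exact ⟨w, hw, hb, hs (by simp), hs (by simp)⟩
  · have := hcard
    push_cast at this ⊢
    exact this

/-- **The counting bound up to a logarithm**, for one cube. -/
theorem c_le_greedy {n d l : ℕ} (hld : l ≤ d) (hdn : d ≤ n) :
    c n d l ≤ (1 + Real.log ((n - l).choose (d - l))) / (2 ^ (d - l) * d.choose l) := by
  classical
  let N : W n → Finset (W n) := fun x => (words n l).filter (fun w => Below w x)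
  have hM : 0 < 2 ^ (d - l) * d.choose l :=
    Nat.mul_pos (pow_pos (by norm_num) _) (Nat.choose_pos hld)
  have hD : 0 < (n - l).choose (d - l) := Nat.choose_pos (by omega)
  have h1 : ∀ x ∈ words n d, 2 ^ (d - l) * d.choose l ≤ (N x).card := by
    intro x hx
    rw [mem_words] at hx
    have h3 := card_sub1 x (stars x) subset_rfl (d - l)
    rw [hx, Nat.choose_symm hld] at h3
    rw [← h3]
    refine card_le_card (fun w hw => ?_)
    rw [mem_sub1] at hw
    refine mem_filter.mpr ⟨?_, hw.1⟩
    rw [mem_words]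
    have h5 := card_sdiff_of_subset (stars_subset hw.1)
    have h6 := card_le_card (stars_subset hw.1)
    omega
  have h2 : ∀ w ∈ words n l, ((words n d).filter (fun x => w ∈ N x)).card
      ≤ (n - l).choose (d - l) := by
    intro w hw
    refine (card_le_card ?_).trans (card_above_le (mem_words.mp hw))
    intro x hx
    rw [mem_filter] at hx ⊢
    exact ⟨hx.1, (mem_filter.mp hx.2).2⟩
  obtain ⟨S, hS, hcov, hcard⟩ := exists_cover (words n l) (words n d) N
    (fun x _ => filter_subset _ _) hM hD h1 h2
  have hw : WCov d l S := by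
    refine ⟨fun w hw => mem_words.mp (hS hw), fun x hx => ?_⟩
    obtain ⟨w, hw, hwN⟩ := hcov x (mem_words.mpr hx)
    exact ⟨w, hw, (mem_filter.mp hwN).2⟩
  have hwn : (0 : ℝ) < (words n l).card := by
    rw [card_words]
    have := Nat.choose_pos (hld.trans hdn)
    positivity
  have e1 : c n d l = f n d l / (words n l).card := by
    unfold c; rw [card_words]; push_cast; rfl
  have hM' : (0 : ℝ) < 2 ^ (d - l) * d.choose l := by exact_mod_cast hM
  rw [e1, div_le_div_iff₀ hwn hM']
  have h3 : (f n d l : ℝ) ≤ S.card := by exact_mod_cast f_le_card hw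
  push_cast at hcard
  calc (f n d l : ℝ) * (2 ^ (d - l) * d.choose l) ≤ S.card * (2 ^ (d - l) * d.choose l) := by
        gcongr
    _ ≤ _ := hcard

/-- **Step for densities**, with the marked covering put in. -/
theorem c_step_log {n m d l : ℕ} (hl : 2 ≤ l) (hld : l ≤ d) (hdn : d ≤ n) (hlm : l ≤ m) :
    c n d l ≤ c m d l + (d.choose 2 : ℝ)
      * (1 + Real.log ((n - l).choose (d - l) * l.choose 2))
        / (m * (2 ^ (d - l) * d.choose l)) := by
  obtain ⟨S, hS, hc⟩ := exists_mcov hl hld hdn
  have h1 := c_step hlm (by omega) (hld.trans hdn) hld hS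
  have hwn : (0 : ℝ) < (words n l).card := by
    rw [card_words]
    have := Nat.choose_pos (hld.trans hdn)
    positivity
  have hm : (0 : ℝ) < m := by exact_mod_cast (show 0 < m by omega)
  have hA : (0 : ℝ) < (d - 2).choose (l - 2) := by
    exact_mod_cast Nat.choose_pos (by omega)
  have hB : (0 : ℝ) < d.choose l := by exact_mod_cast Nat.choose_pos hld
  have hE : (d.choose l : ℝ) * l.choose 2 = d.choose 2 * (d - 2).choose (l - 2) := by
    exact_mod_cast Nat.choose_mul (n := d) (k := l) (s := 2) hl
  refine h1.trans (add_le_add le_rfl ?_)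
  have h2 : (S.card : ℝ) / (words n l).card
      ≤ (1 + Real.log ((n - l).choose (d - l) * l.choose 2))
        / (2 ^ (d - l) * (d - 2).choose (l - 2)) := by
    rw [div_le_div_iff₀ hwn (by positivity)]
    exact hc
  set L : ℝ := 1 + Real.log ((n - l).choose (d - l) * l.choose 2) with hL
  calc (l.choose 2 : ℝ) / m * (S.card / (words n l).card)
      ≤ (l.choose 2 : ℝ) / m * (L / (2 ^ (d - l) * (d - 2).choose (l - 2))) := by gcongr
    _ = (d.choose 2 : ℝ) * L / (m * (2 ^ (d - l) * d.choose l)) := by
        rw [div_mul_div_comm, div_eq_div_iff (by positivity) (by positivity)]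
        linear_combination (m : ℝ) * L * 2 ^ (d - l) * hE

end Pool.Agent.Lib.MP_7c0edd_co.Blow
end

section
/-!
# The numeric part: iterating the blow-up step along `n, n^2, n^4, ...`
-/
set_option autoImplicit false

namespace Pool.Agent.Lib.MP_7c0edd_co.Blow

open Finset Pool.Agent.Lib.MP_7c0edd_co.H21

/-- iteration of `f (M^2) ≤ f M + A * (log M / M)` along `M = n^(2^j)` -/
lemma iter_sq {f : ℕ → ℝ} {A : ℝ} (hA : 0 ≤ A) {n : ℕ} (hn : 2 ≤ n)
    (h : ∀ M, n ≤ M → f (M ^ 2) ≤ f M + A * (Real.log M / M)) (j : ℕ) :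
    f (n ^ (2 ^ j)) + A * ((n + 1) / n) * (Real.log ((n ^ (2 ^ j) : ℕ) : ℝ)
        / (((n ^ (2 ^ j) : ℕ) : ℝ) - 1))
      ≤ f n + A * ((n + 1) / n) * (Real.log n / (n - 1)) := by
  induction j with
  | zero => simp
  | succ j ih =>
    refine le_trans ?_ ih
    have e0 : n ^ (2 ^ (j + 1)) = (n ^ (2 ^ j)) ^ 2 := by rw [← pow_mul, pow_succ]
    rw [e0]
    set M := n ^ (2 ^ j) with hM
    have hnM : n ≤ M := by
      rw [hM]
      calc n = n ^ 1 := (pow_one n).symm
        _ ≤ n ^ (2 ^ j) := Nat.pow_le_pow_right (by omega) Nat.one_le_two_pow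
    have h1 := h M hnM
    have hn' : (2 : ℝ) ≤ n := by exact_mod_cast hn
    have hM' : (n : ℝ) ≤ M := by exact_mod_cast hnM
    have hM0 : (0 : ℝ) < M := by linarith
    have hL : 0 ≤ Real.log M := Real.log_nonneg (by linarith)
    have e1 : Real.log ((M ^ 2 : ℕ) : ℝ) = 2 * Real.log M := by
      push_cast; rw [Real.log_pow]; norm_num
    rw [e1]
    have h2 : Real.log M / M ≤ ((n + 1) / n) * (Real.log M / (M - 1))
        - ((n + 1) / n) * (2 * Real.log M / (((M ^ 2 : ℕ) : ℝ) - 1)) := by
      have e2 : ((n + 1) / n : ℝ) * (Real.log M / (M - 1))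
        - ((n + 1) / n) * (2 * Real.log M / (((M ^ 2 : ℕ) : ℝ) - 1))
        = Real.log M * (((n + 1) / n) / (M + 1)) := by
        have h3 : (M : ℝ) - 1 ≠ 0 := by linarith
        have h4 : ((M : ℝ) ^ 2 - 1) ≠ 0 := by nlinarith
        have h5 : (M : ℝ) + 1 ≠ 0 := by linarith
        have h6 : (n : ℝ) ≠ 0 := by linarith
        push_cast
        have h7 : (M : ℝ) ^ 2 - 1 = (M - 1) * (M + 1) := by ring
        rw [h7]
        field_simp
        ring
      rw [e2, div_eq_mul_one_div]
      refine mul_le_mul_of_nonneg_left ?_ hL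
      rw [div_div, div_le_div_iff₀ hM0 (by positivity)]
      nlinarith
    have h8 := mul_le_mul_of_nonneg_left h2 hA
    rw [mul_sub, ← mul_assoc, ← mul_assoc] at h8
    linarith

/-- the limit, from a step inequality -/
lemma cLim_le_of_step {d l n : ℕ} (hl : l ≤ d) (hn : 2 ≤ n) {A : ℝ} (hA : 0 ≤ A)
    (h : ∀ M, n ≤ M → c (M ^ 2) d l ≤ c M d l + A * (Real.log M / M)) :
    cLim d l ≤ c n d l + A * ((n + 1) / n) * (Real.log n / (n - 1)) := by
  refine ciSup_le fun k => ?_
  have h1 : k ≤ n ^ (2 ^ k) :=
    calc k ≤ 2 ^ k := Nat.lt_two_pow_self.le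
      _ ≤ n ^ (2 ^ k) := le_trans (Nat.lt_two_pow_self.le) (Nat.pow_le_pow_left hn _)
  have h2 := iter_sq (f := fun k => c k d l) hA hn h k
  have h3 : 0 ≤ A * ((n + 1) / n) * (Real.log ((n ^ (2 ^ k) : ℕ) : ℝ)
        / (((n ^ (2 ^ k) : ℕ) : ℝ) - 1)) := by
    have h4 : 1 ≤ n ^ (2 ^ k) := Nat.one_le_pow _ _ (by omega)
    have h5 : (1 : ℝ) ≤ ((n ^ (2 ^ k) : ℕ) : ℝ) := by exact_mod_cast h4
    refine mul_nonneg (mul_nonneg hA (by positivity)) (div_nonneg (Real.log_nonneg h5) ?_)
    linarith
  have h6 : c k d l ≤ c (n ^ (2 ^ k)) d l := c_monotone hl h1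
  linarith

/-- the logarithm in one step -/
lemma step_num {M d l : ℕ} (hl : 2 ≤ l) (hld : l < d) (hdM : d ≤ M) :
    c (M ^ 2) d l ≤ c M d l + ((d : ℝ) * (d - 1) / 2)
      * (1 + 2 * (d - l) * Real.log M + 2 * Real.log l - Real.log 2)
        / (M * (2 ^ (d - l) * d.choose l)) := by
  have hM2 : M ≤ M ^ 2 := Nat.le_self_pow (by norm_num) M
  refine (c_step_log (n := M ^ 2) (m := M) hl hld.le (hdM.trans hM2) (by omega)).trans ?_
  have hch : (0 : ℝ) < d.choose l := by exact_mod_cast Nat.choose_pos hld.le
  have hM0 : (0 : ℝ) < M := by exact_mod_cast (by omega : 0 < M)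
  have e1 : (d.choose 2 : ℝ) = (d : ℝ) * (d - 1) / 2 := Nat.cast_choose_two ℝ d
  have e2 : (l.choose 2 : ℝ) = (l : ℝ) * (l - 1) / 2 := Nat.cast_choose_two ℝ l
  rw [e1]
  have hd1 : (1 : ℝ) ≤ d := by exact_mod_cast (by omega : 1 ≤ d)
  have hl2 : (2 : ℝ) ≤ l := by exact_mod_cast hl
  have hc1 : 0 < (M ^ 2 - l).choose (d - l) := Nat.choose_pos (by omega)
  have hc1' : (0 : ℝ) < ((M ^ 2 - l).choose (d - l) : ℝ) := by exact_mod_cast hc1
  have hc2 : 0 < l.choose 2 := Nat.choose_pos hl
  have hc2' : (0 : ℝ) < (l.choose 2 : ℝ) := by exact_mod_cast hc2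
  have h1 : Real.log ((M ^ 2 - l).choose (d - l) * l.choose 2)
      ≤ 2 * (d - l) * Real.log M + 2 * Real.log l - Real.log 2 := by
    rw [Real.log_mul hc1'.ne' hc2'.ne']
    have h2 : Real.log ((M ^ 2 - l).choose (d - l) : ℝ) ≤ 2 * (d - l) * Real.log M := by
      have h3 : (((M ^ 2 - l).choose (d - l) : ℕ) : ℝ) ≤ ((M : ℝ) ^ 2) ^ (d - l) := by
        calc (((M ^ 2 - l).choose (d - l) : ℕ) : ℝ) ≤ ((M ^ 2).choose (d - l) : ℕ) := by
              exact_mod_cast Nat.choose_le_choose _ (Nat.sub_le _ _)
          _ ≤ (((M ^ 2) ^ (d - l) : ℕ) : ℝ) := by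
              exact_mod_cast Nat.choose_le_pow _ _
          _ = ((M : ℝ) ^ 2) ^ (d - l) := by push_cast; rfl
      refine (Real.log_le_log hc1' h3).trans ?_
      rw [Real.log_pow, Real.log_pow, Nat.cast_sub hld.le]
      push_cast
      linarith
    have h4 : Real.log (l.choose 2 : ℝ) ≤ 2 * Real.log l - Real.log 2 := by
      have h5 : (l.choose 2 : ℝ) ≤ (l : ℝ) ^ 2 / 2 := by rw [e2]; nlinarith
      refine (Real.log_le_log hc2' h5).trans ?_
      rw [Real.log_div (by positivity) (by norm_num), Real.log_pow]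
      norm_num
    linarith
  have h6 : (0 : ℝ) ≤ (d : ℝ) * (d - 1) / 2 := by
    have := mul_nonneg (by linarith : (0 : ℝ) ≤ d) (by linarith : (0 : ℝ) ≤ (d : ℝ) - 1)
    linarith
  gcongr
  linarith

/-- rate of convergence, for all `2 ≤ l < d ≤ n` -/
theorem cLim_le_rate {n d l : ℕ} (hl : 2 ≤ l) (hld : l < d) (hdn : d ≤ n) :
    cLim d l ≤ c n d l
      + 3 * (d : ℝ) ^ 2 * ((d : ℝ) - l) * Real.log n / (n * (2 ^ (d - l) * d.choose l)) := by
  have hch : (0 : ℝ) < d.choose l := by exact_mod_cast Nat.choose_pos hld.le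
  set N : ℝ := 2 ^ (d - l) * d.choose l with hN
  have hN0 : 0 < N := by positivity
  have hd3 : (3 : ℝ) ≤ d := by exact_mod_cast (by omega : 3 ≤ d)
  have hld' : (l : ℝ) + 1 ≤ d := by exact_mod_cast hld
  have hdn' : (d : ℝ) ≤ n := by exact_mod_cast hdn
  have hl2 : (2 : ℝ) ≤ l := by exact_mod_cast hl
  set t : ℝ := (d : ℝ) - l with ht
  have ht1 : 1 ≤ t := by rw [ht]; linarith
  have hA : 0 ≤ (d : ℝ) * (d - 1) / 2 * (9 / 2 * t) / N := by
    have : 0 ≤ (d : ℝ) - 1 := by linarith
    positivity
  have h1 := cLim_le_of_step (n := n) hld.le (by omega) hA (fun M hM => ?_)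
  · refine h1.trans ?_
    have hlog : 0 ≤ Real.log n := Real.log_nonneg (by linarith)
    have h2 : (d : ℝ) * (d - 1) / 2 * (9 / 2 * t) / N * ((n + 1) / n) * (Real.log n / (n - 1))
        = (9 / 4 * t * Real.log n / (n * N)) * (d * (d - 1) * ((n + 1) / (n - 1))) := by
      have : (n : ℝ) - 1 ≠ 0 := by linarith
      have : (n : ℝ) ≠ 0 := by linarith
      field_simp
      ring
    have h3 : (d : ℝ) * (d - 1) * ((n + 1) / (n - 1)) ≤ 4 / 3 * d ^ 2 := by
      have h4 : ((n : ℝ) + 1) / (n - 1) ≤ (d + 1) / (d - 1) := by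
        rw [div_le_div_iff₀ (by linarith) (by linarith)]
        nlinarith
      have h5 : (d : ℝ) * (d - 1) * ((n + 1) / (n - 1)) ≤ d * (d - 1) * ((d + 1) / (d - 1)) := by
        have : 0 ≤ (d : ℝ) * (d - 1) := mul_nonneg (by linarith) (by linarith)
        exact mul_le_mul_of_nonneg_left h4 this
      have h6 : (d : ℝ) * (d - 1) * ((d + 1) / (d - 1)) = d * (d + 1) := by
        have : (d : ℝ) - 1 ≠ 0 := by linarith
        field_simp
      rw [h6] at h5
      nlinarith
    rw [h2]
    have h7 : 0 ≤ 9 / 4 * t * Real.log n / (n * N) := by positivity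
    have h8 := mul_le_mul_of_nonneg_left h3 h7
    have h9 : 9 / 4 * t * Real.log n / (n * N) * (4 / 3 * (d : ℝ) ^ 2)
        = 3 * (d : ℝ) ^ 2 * t * Real.log n / (n * N) := by ring
    rw [h9] at h8
    linarith
  · have hM' : (n : ℝ) ≤ M := by exact_mod_cast hM
    have h2 := step_num hl hld (hdn.trans hM)
    refine h2.trans ?_
    rw [← hN]
    have hM0 : (0 : ℝ) < M := by linarith
    have hlogM : 1 ≤ Real.log M := by
      rw [Real.le_log_iff_exp_le hM0]
      have := Real.exp_one_lt_d9
      linarith
    have hlogl : Real.log l ≤ Real.log M := Real.log_le_log (by linarith) (by linarith)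
    have hlog2 : (1 : ℝ) / 2 ≤ Real.log 2 := by
      have := Real.log_two_gt_d9
      linarith
    have h3 : 1 + 2 * t * Real.log M + 2 * Real.log l - Real.log 2 ≤ 9 / 2 * t * Real.log M := by
      have : Real.log M ≤ t * Real.log M := le_mul_of_one_le_left (by linarith) ht1
      nlinarith
    have h4 : (0 : ℝ) ≤ (d : ℝ) * (d - 1) / 2 := by
      have := mul_nonneg (by linarith : (0 : ℝ) ≤ d) (by linarith : (0 : ℝ) ≤ (d : ℝ) - 1)
      linarith
    have h5 := mul_le_mul_of_nonneg_left h3 h4
    have h6 := div_le_div_of_nonneg_right h5 (mul_pos hM0 hN0).le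
    have h7 : (d : ℝ) * (d - 1) / 2 * (9 / 2 * t * Real.log M) / (M * N)
        = (d : ℝ) * (d - 1) / 2 * (9 / 2 * t) / N * (Real.log M / M) := by
      field_simp
    rw [h7] at h6
    linarith

/-- the absolute bound `6 (d - l) log d / N` for all `2 ≤ l < d` -/
theorem cLim_le_log {d l : ℕ} (hl : 2 ≤ l) (hld : l < d) :
    cLim d l ≤ 6 * ((d : ℝ) - l) * Real.log d / (2 ^ (d - l) * d.choose l) := by
  have hch : (0 : ℝ) < d.choose l := by exact_mod_cast Nat.choose_pos hld.le
  rcases Nat.lt_or_ge d 4 with h4 | h4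
  · -- `d = 3`, `l = 2`
    obtain rfl : d = 3 := by omega
    obtain rfl : l = 2 := by omega
    have h1 : cLim 3 2 ≤ 1 := ciSup_le fun n => c_le_one (by norm_num) n
    have h2 : (1 : ℝ) ≤ Real.log (3 : ℕ) := by
      rw [Real.le_log_iff_exp_le (by norm_num)]
      have := Real.exp_one_lt_d9
      push_cast
      linarith
    refine h1.trans ?_
    have e : ((Nat.choose 3 2 : ℕ) : ℝ) = 3 := by norm_num [Nat.choose]
    rw [e]
    norm_num
    push_cast at h2
    linarith
  set N : ℝ := 2 ^ (d - l) * d.choose l with hN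
  have hN0 : 0 < N := by positivity
  have hd4 : (4 : ℝ) ≤ d := by exact_mod_cast h4
  have hld' : (l : ℝ) + 1 ≤ d := by exact_mod_cast hld
  have hl2 : (2 : ℝ) ≤ l := by exact_mod_cast hl
  set t : ℝ := (d : ℝ) - l with ht
  have ht1 : 1 ≤ t := by rw [ht]; linarith
  have hlog2 : Real.log 2 > 0.6931471803 := Real.log_two_gt_d9
  have hlogd : 2 * Real.log 2 ≤ Real.log d := by
    have e : 2 * Real.log 2 = Real.log 4 := by
      rw [show (4 : ℝ) = 2 ^ 2 by norm_num, Real.log_pow]; norm_num
    rw [e]
    exact Real.log_le_log (by norm_num) hd4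
  have hdd : d ≤ d ^ 2 := Nat.le_self_pow (by norm_num) d
  have hA : 0 ≤ (d : ℝ) * (d - 1) / 2 * (2 * t + 9 / 8) / N := by
    have : 0 ≤ (d : ℝ) - 1 := by linarith
    positivity
  have h1 := cLim_le_of_step (n := d ^ 2) hld.le (by nlinarith) hA (fun M hM => ?_)
  · refine h1.trans ?_
    -- greedy bound at `d^2`
    have h2 : c (d ^ 2) d l ≤ (1 + 2 * t * Real.log d) / N := by
      refine (c_le_greedy hld.le hdd).trans ?_
      rw [← hN]
      refine div_le_div_of_nonneg_right ?_ hN0.le
      have hc1 : 0 < (d ^ 2 - l).choose (d - l) := Nat.choose_pos (by omega)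
      have hc1' : (0 : ℝ) < ((d ^ 2 - l).choose (d - l) : ℝ) := by exact_mod_cast hc1
      have h3 : (((d ^ 2 - l).choose (d - l) : ℕ) : ℝ) ≤ ((d : ℝ) ^ 2) ^ (d - l) := by
        calc (((d ^ 2 - l).choose (d - l) : ℕ) : ℝ) ≤ ((d ^ 2).choose (d - l) : ℕ) := by
              exact_mod_cast Nat.choose_le_choose _ (Nat.sub_le _ _)
          _ ≤ (((d ^ 2) ^ (d - l) : ℕ) : ℝ) := by
              exact_mod_cast Nat.choose_le_pow _ _
          _ = ((d : ℝ) ^ 2) ^ (d - l) := by push_cast; rfl
      have h5 := Real.log_le_log hc1' h3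
      rw [Real.log_pow, Real.log_pow, Nat.cast_sub hld.le, ← ht] at h5
      push_cast at h5
      linarith
    have e1 : Real.log ((d ^ 2 : ℕ) : ℝ) = 2 * Real.log d := by
      push_cast; rw [Real.log_pow]; norm_num
    rw [e1]
    push_cast
    have h3 : (d : ℝ) * (d - 1) / 2 * (2 * t + 9 / 8) / N * (((d : ℝ) ^ 2 + 1) / (d : ℝ) ^ 2)
        * (2 * Real.log d / ((d : ℝ) ^ 2 - 1))
        = ((2 * t + 9 / 8) * Real.log d / N) * (((d : ℝ) ^ 2 + 1) / (d * (d + 1))) := by
      have a1 : (d : ℝ) - 1 ≠ 0 := by linarith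
      have a2 : (d : ℝ) + 1 ≠ 0 := by linarith
      have a3 : (d : ℝ) ≠ 0 := by linarith
      have a4 : (d : ℝ) ^ 2 - 1 = (d - 1) * (d + 1) := by ring
      rw [a4]
      field_simp
    rw [h3]
    have h4 : ((d : ℝ) ^ 2 + 1) / (d * (d + 1)) ≤ 1 := by
      rw [div_le_one (by nlinarith)]
      nlinarith
    have h5 : 0 ≤ (2 * t + 9 / 8) * Real.log d / N := by
      have : 0 ≤ Real.log d := by linarith
      positivity
    have h6 := mul_le_mul_of_nonneg_left h4 h5
    have h7 : (1 + 2 * t * Real.log d) / N + (2 * t + 9 / 8) * Real.log d / N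
        ≤ 6 * t * Real.log d / N := by
      rw [← add_div]
      refine div_le_div_of_nonneg_right ?_ hN0.le
      have h8 : Real.log d ≤ t * Real.log d := le_mul_of_one_le_left (by linarith) ht1
      nlinarith
    linarith
  · have hM' : ((d : ℝ) ^ 2) ≤ M := by exact_mod_cast hM
    have h2 := step_num hl hld (hdd.trans hM)
    refine h2.trans ?_
    rw [← hN]
    have hM0 : (0 : ℝ) < M := by nlinarith
    have hlogM : 2 * Real.log d ≤ Real.log M := by
      have e : 2 * Real.log d = Real.log ((d : ℝ) ^ 2) := by rw [Real.log_pow]; norm_num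
      rw [e]
      exact Real.log_le_log (by positivity) hM'
    have hlogl : Real.log l ≤ Real.log d := Real.log_le_log (by linarith) (by linarith)
    have h3 : 1 + 2 * t * Real.log M + 2 * Real.log l - Real.log 2
        ≤ (2 * t + 9 / 8) * Real.log M := by
      nlinarith
    have h4 : (0 : ℝ) ≤ (d : ℝ) * (d - 1) / 2 := by
      have := mul_nonneg (by linarith : (0 : ℝ) ≤ d) (by linarith : (0 : ℝ) ≤ (d : ℝ) - 1)
      linarith
    have h5 := mul_le_mul_of_nonneg_left h3 h4
    have h6 := div_le_div_of_nonneg_right h5 (mul_pos hM0 hN0).le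
    have h7 : (d : ℝ) * (d - 1) / 2 * ((2 * t + 9 / 8) * Real.log M) / (M * N)
        = (d : ℝ) * (d - 1) / 2 * (2 * t + 9 / 8) / N * (Real.log M / M) := by
      field_simp
    rw [h7] at h6
    linarith

end Pool.Agent.Lib.MP_7c0edd_co.Blow
end

section
/-!
# The bound `C t log (t + 1) / N` for all `2 ≤ l < d`
-/
set_option autoImplicit false

namespace Pool.Agent.Lib.MP_7c0edd_co.Blow

open Finset Pool.Agent.Lib.MP_7c0edd_co.H21

/-- there is an absolute constant `C` with `cLim d l ≤ C t log (t + 1) / N` for all `2 ≤ l < d`,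
where `t = d - l` and `N = 2^t (d choose l)` -/
theorem cLim_le_t_log_t : ∃ C : ℝ, ∀ d l : ℕ, 2 ≤ l → l < d →
    cLim d l ≤ C * (((d : ℝ) - l) * Real.log ((d : ℝ) - l + 1))
      / (2 ^ (d - l) * (d.choose l : ℝ)) := by
  obtain ⟨-, ⟨C₂, h₂⟩, -⟩ := MP7c0edd.specFinal2
  refine ⟨max C₂ 12, fun d l hl hld => ?_⟩
  have hN : (0 : ℝ) < 2 ^ (d - l) * (d.choose l : ℝ) := by
    have : (0 : ℝ) < d.choose l := by exact_mod_cast Nat.choose_pos hld.le
    positivity
  have hld' : (l : ℝ) + 1 ≤ d := by exact_mod_cast hld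
  have hd : (0 : ℝ) ≤ (d : ℝ) - l := by linarith
  have hlog : 0 ≤ Real.log ((d : ℝ) - l + 1) := Real.log_nonneg (by linarith)
  rcases Nat.lt_or_ge l ((d - l) ^ 2) with h | h
  · refine (cLim_le_log hl hld).trans (div_le_div_of_nonneg_right ?_ hN.le)
    have h1 : Real.log d ≤ 2 * Real.log ((d : ℝ) - l + 1) := by
      have e : 2 * Real.log ((d : ℝ) - l + 1) = Real.log (((d : ℝ) - l + 1) ^ 2) := by
        rw [Real.log_pow]; norm_num
      rw [e]
      have hd0 : (0 : ℝ) < d := by
        have : (0 : ℝ) ≤ l := Nat.cast_nonneg l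
        linarith
      refine Real.log_le_log hd0 ?_
      have h3 : (l : ℝ) < ((d : ℝ) - l) ^ 2 := by
        have : ((l : ℕ) : ℝ) < (((d - l) ^ 2 : ℕ) : ℝ) := by exact_mod_cast h
        rw [Nat.cast_pow, Nat.cast_sub hld.le] at this
        exact this
      nlinarith
    have h2 : 6 * ((d : ℝ) - l) * Real.log d
        ≤ 12 * (((d : ℝ) - l) * Real.log ((d : ℝ) - l + 1)) := by
      have := mul_le_mul_of_nonneg_left h1 hd
      linarith
    refine h2.trans ?_
    exact mul_le_mul_of_nonneg_right (le_max_right _ _) (mul_nonneg hd hlog)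
  · refine (h₂ d l hld h).trans ?_
    gcongr
    exact le_max_left _ _

end Pool.Agent.Lib.MP_7c0edd_co.Blow
end
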